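import Pool.Agent.U272.PS.Count

/-!
# Bisectors and `k`-lines of sets which are centrally symmetric up to `t` points
-/

set_option autoImplicit false

namespace Pool.Agent.U272.PS

open Finset Pool.Agent.R117.KR

open scoped Classical in
lemma sym_count {R : Finset (ℝ × ℝ)} {o : ℝ × ℝ} (hR : ∀ p ∈ R, o + o - p ∈ R) (v : ℝ × ℝ → ℝ)
    (hv : ∀ p, v (o + o - p) = - v p) {γ : ℝ} (hγ : 0 < γ) :
    (R.filter (fun p => v p < γ)).card = (R.filter (fun p => γ < v p)).card +
      (R.filter (fun p => v p = γ)).card + (R.filter (fun p => |v p| < γ)).card := by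
  have h1 : (R.filter (fun p => γ < v p)).card = (R.filter (fun p => v p < -γ)).card := by
    apply Finset.card_nbij' (fun p => o + o - p) (fun p => o + o - p)
    · intro p hp
      simp only [coe_filter, Set.mem_setOf_eq, mem_filter] at hp ⊢
      exact ⟨hR p hp.1, by rw [hv]; linarith [hp.2]⟩
    · intro p hp
      simp only [coe_filter, Set.mem_setOf_eq, mem_filter] at hp ⊢
      exact ⟨hR p hp.1, by rw [hv]; linarith [hp.2]⟩
    · intro p _; simp
    · intro p _; simp
  have h2 : (R.filter (fun p => v p = γ)).card = (R.filter (fun p => v p = -γ)).card := by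
    apply Finset.card_nbij' (fun p => o + o - p) (fun p => o + o - p)
    · intro p hp
      simp only [coe_filter, Set.mem_setOf_eq, mem_filter] at hp ⊢
      exact ⟨hR p hp.1, by rw [hv]; linarith [hp.2]⟩
    · intro p hp
      simp only [coe_filter, Set.mem_setOf_eq, mem_filter] at hp ⊢
      exact ⟨hR p hp.1, by rw [hv]; linarith [hp.2]⟩
    · intro p _; simp
    · intro p _; simp
  rw [h1, h2]
  have h3 : R.filter (fun p => v p < γ) = (R.filter (fun p => v p < -γ) ∪
      R.filter (fun p => v p = -γ)) ∪ R.filter (fun p => |v p| < γ) := by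
    ext p
    simp only [mem_filter, mem_union, abs_lt]
    constructor
    · rintro ⟨hp, h⟩
      rcases lt_trichotomy (v p) (-γ) with h' | h' | h'
      · exact Or.inl (Or.inl ⟨hp, h'⟩)
      · exact Or.inl (Or.inr ⟨hp, h'⟩)
      · exact Or.inr ⟨hp, h', h⟩
    · rintro ((⟨hp, h⟩ | ⟨hp, h⟩) | ⟨hp, h, h'⟩)
      · exact ⟨hp, by linarith⟩
      · exact ⟨hp, by linarith⟩
      · exact ⟨hp, h'⟩
  rw [h3, card_union_of_disjoint, card_union_of_disjoint]
  · rw [disjoint_filter]
    intro p _ h h'
    linarith
  · rw [disjoint_union_left, disjoint_filter, disjoint_filter]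
    refine ⟨fun p _ h h' => ?_, fun p _ h h' => ?_⟩
    · rw [abs_lt] at h'
      linarith [h'.1]
    · rw [abs_lt] at h'
      linarith [h'.1]

open scoped Classical in
lemma strip_le {P R : Finset (ℝ × ℝ)} {o : ℝ × ℝ} (hR : ∀ p ∈ R, o + o - p ∈ R) {t : ℕ}
    (ht : (P \ R).card + (R \ P).card ≤ t) (v : ℝ × ℝ → ℝ)
    (hv : ∀ p, v (o + o - p) = - v p) {γ : ℝ} (hγ : 0 < γ) (hon : ∀ p ∈ P, v p = γ → p ∈ R) :
    (R.filter (fun p => |v p| < γ)).card + (P.filter (fun p => γ < v p)).card +
      (P.filter (fun p => v p = γ)).card ≤ (P.filter (fun p => v p < γ)).card + t := by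
  have h1 := sym_count hR v hv hγ
  have h2 : (R.filter (fun p => v p < γ)).card ≤
      (P.filter (fun p => v p < γ)).card + (R \ P).card := by
    refine (card_le_card (t := P.filter (fun p => v p < γ) ∪ (R \ P)) ?_).trans (card_union_le _ _)
    intro p hp
    rw [mem_filter] at hp
    rw [mem_union, mem_filter, mem_sdiff]
    by_cases h : p ∈ P
    · exact Or.inl ⟨h, hp.2⟩
    · exact Or.inr ⟨hp.1, h⟩
  have h3 : (P.filter (fun p => γ < v p)).card ≤
      (R.filter (fun p => γ < v p)).card + (P \ R).card := by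
    refine (card_le_card (t := R.filter (fun p => γ < v p) ∪ (P \ R)) ?_).trans (card_union_le _ _)
    intro p hp
    rw [mem_filter] at hp
    rw [mem_union, mem_filter, mem_sdiff]
    by_cases h : p ∈ R
    · exact Or.inl ⟨h, hp.2⟩
    · exact Or.inr ⟨hp.1, h⟩
  have h4 : (P.filter (fun p => v p = γ)).card ≤ (R.filter (fun p => v p = γ)).card := by
    apply card_le_card
    intro p hp
    rw [mem_filter] at hp ⊢
    exact ⟨hon p hp.1 hp.2, hp.2⟩
  omega

lemma count_split (P : Finset (ℝ × ℝ)) (v : ℝ × ℝ → ℝ) (γ : ℝ) :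
    (P.filter (fun p => v p < γ)).card + (P.filter (fun p => γ < v p)).card +
      (P.filter (fun p => v p = γ)).card = P.card := by
  classical
  have h3 : P = (P.filter (fun p => v p < γ) ∪
      P.filter (fun p => γ < v p)) ∪ P.filter (fun p => v p = γ) := by
    ext p
    simp only [mem_filter, mem_union]
    constructor
    · intro hp
      rcases lt_trichotomy (v p) γ with h' | h' | h'
      · exact Or.inl (Or.inl ⟨hp, h'⟩)
      · exact Or.inr ⟨hp, h'⟩
      · exact Or.inl (Or.inr ⟨hp, h'⟩)
    · rintro ((⟨hp, -⟩ | ⟨hp, -⟩) | ⟨hp, -⟩) <;> exact hp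
  conv_rhs => rw [h3]
  rw [card_union_of_disjoint, card_union_of_disjoint]
  · rw [disjoint_filter]
    intro p _ h h'
    linarith
  · rw [disjoint_union_left, disjoint_filter, disjoint_filter]
    exact ⟨fun p _ h h' => by linarith, fun p _ h h' => by linarith⟩

/-- lines spanned by a point of `A` and a point of `P` -/
lemma span_card_le (S : Finset (Set (ℝ × ℝ))) (A P : Finset (ℝ × ℝ))
    (h : ∀ L ∈ S, ∃ a b c : ℝ, (a ≠ 0 ∨ b ≠ 0) ∧ L = Line a b c ∧ ∃ p ∈ A, ∃ q ∈ P, p ≠ q ∧ p ∈ L ∧ q ∈ L) :
    S.card ≤ A.card * P.card := by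
  classical
  have hch : ∀ L : Set (ℝ × ℝ), ∃ x : (ℝ × ℝ) × (ℝ × ℝ), L ∈ S →
      x.1 ∈ A ∧ x.2 ∈ P ∧ x.1 ≠ x.2 ∧ x.1 ∈ L ∧ x.2 ∈ L := by
    intro L
    by_cases hL : L ∈ S
    · obtain ⟨a, b, c, -, -, p, hp, q, hq, hpq, h1, h2⟩ := h L hL
      exact ⟨(p, q), fun _ => ⟨hp, hq, hpq, h1, h2⟩⟩
    · exact ⟨((0, 0), (0, 0)), fun h => absurd h hL⟩
  choose f hf using hch
  rw [← card_product]
  apply card_le_card_of_injOn f
  · intro L hL
    have := hf L hL
    rw [mem_coe, mem_product]
    exact ⟨this.1, this.2.1⟩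
  · intro L hL L' hL' he
    have h1 := hf L hL
    have h2 := hf L' hL'
    rw [← he] at h2
    obtain ⟨a, b, c, hab, rfl, -⟩ := h L hL
    obtain ⟨a', b', c', hab', rfl, -⟩ := h L' hL'
    exact line_unique hab hab' h1.2.2.1 h1.2.2.2.1 h1.2.2.2.2 h2.2.2.2.1 h2.2.2.2.2

/-- the general bound: a finite set of lines spanned by `P`; those which do not pass through the
centre or a point of `P \ R` have at most `M` points of `R` in the strip -/
lemma lines_le {P R : Finset (ℝ × ℝ)} {o : ℝ × ℝ} (hR : ∀ p ∈ R, o + o - p ∈ R) (N : ℕ)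
    (S : Finset (Set (ℝ × ℝ)))
    (hS : ∀ L ∈ S, ∃ a b c : ℝ, (a ≠ 0 ∨ b ≠ 0) ∧ L = Line a b c ∧ ∃ p ∈ P, ∃ q ∈ P, p ≠ q ∧ p ∈ L ∧ q ∈ L)
    (hN : ∀ S' : Finset (Set (ℝ × ℝ)), S' ⊆ S → (∀ L ∈ S', o ∉ L ∧ ∀ p ∈ P, p ∈ L → p ∈ R) → S'.card ≤ N) :
    S.card ≤ N + R.card + (P \ R).card * P.card := by
  classical
  set S1 := S.filter (fun L => ∃ p ∈ P \ R, p ∈ L) with hS1
  set S2 := S.filter (fun L => (¬ ∃ p ∈ P \ R, p ∈ L) ∧ o ∈ L) with hS2
  set S3 := S.filter (fun L => (¬ ∃ p ∈ P \ R, p ∈ L) ∧ o ∉ L) with hS3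
  have hU : S ⊆ (S3 ∪ S2) ∪ S1 := by
    intro L hL
    rw [mem_union, mem_union, hS1, hS2, hS3, mem_filter, mem_filter, mem_filter]
    by_cases h1 : ∃ p ∈ P \ R, p ∈ L
    · exact Or.inr ⟨hL, h1⟩
    · by_cases h2 : o ∈ L
      · exact Or.inl (Or.inr ⟨hL, h1, h2⟩)
      · exact Or.inl (Or.inl ⟨hL, h1, h2⟩)
  have c1 : S1.card ≤ (P \ R).card * P.card := by
    apply span_card_le
    intro L hL
    rw [hS1, mem_filter] at hL
    obtain ⟨a, b, c, hab, hLe, p, hp, q, hq, hpq, hpL, hqL⟩ := hS L hL.1
    obtain ⟨r, hr, hrL⟩ := hL.2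
    refine ⟨a, b, c, hab, hLe, r, hr, ?_⟩
    by_cases h : r = p
    · exact ⟨q, hq, by rw [h]; exact hpq, hrL, hqL⟩
    · exact ⟨p, hp, h, hrL, hpL⟩
  have c2 : S2.card ≤ ({o} : Finset (ℝ × ℝ)).card * R.card := by
    apply span_card_le
    intro L hL
    rw [hS2, mem_filter] at hL
    obtain ⟨a, b, c, hab, hLe, p, hp, q, hq, hpq, hpL, hqL⟩ := hS L hL.1
    refine ⟨a, b, c, hab, hLe, o, mem_singleton_self _, ?_⟩
    have hin : ∀ r ∈ P, r ∈ L → r ∈ R := by
      intro r hr hrL
      by_contra hc
      exact hL.2.1 ⟨r, mem_sdiff.2 ⟨hr, hc⟩, hrL⟩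
    by_cases h : o = p
    · exact ⟨q, hin q hq hqL, by rw [h]; exact hpq, hL.2.2, hqL⟩
    · exact ⟨p, hin p hp hpL, h, hL.2.2, hpL⟩
  have c3 : S3.card ≤ N := by
    apply hN S3 (filter_subset _ _)
    intro L hL
    rw [hS3, mem_filter] at hL
    refine ⟨hL.2.2, ?_⟩
    intro p hp hpL
    by_contra hc
    exact hL.2.1 ⟨p, mem_sdiff.2 ⟨hp, hc⟩, hpL⟩
  rw [card_singleton, one_mul] at c2
  calc S.card ≤ ((S3 ∪ S2) ∪ S1).card := card_le_card hU
    _ ≤ (S3 ∪ S2).card + S1.card := card_union_le _ _
    _ ≤ S3.card + S2.card + S1.card := Nat.add_le_add_right (card_union_le _ _) _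
    _ ≤ _ := by omega

open scoped Classical in
/-- the data needed for `SL` -/
lemma sl_of {P R : Finset (ℝ × ℝ)} {o : ℝ × ℝ} (hR : ∀ p ∈ R, o + o - p ∈ R) {t : ℕ}
    (ht : (P \ R).card + (R \ P).card ≤ t) {a b c : ℝ} (hab : a ≠ 0 ∨ b ≠ 0)
    (hsp : ∃ p ∈ P, ∃ q ∈ P, p ≠ q ∧ p ∈ Line a b c ∧ q ∈ Line a b c) (ho : o ∉ Line a b c)
    (hon : ∀ p ∈ P, p ∈ Line a b c → p ∈ R) {M : ℕ}
    (h1 : (P.filter (fun p => a * p.1 + b * p.2 < c)).card + t ≤
      (P.filter (fun p => c < a * p.1 + b * p.2)).card + 2 * 0 +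
        (P.filter (fun p => a * p.1 + b * p.2 = c)).card + M)
    (h2 : (P.filter (fun p => c < a * p.1 + b * p.2)).card + t ≤
      (P.filter (fun p => a * p.1 + b * p.2 < c)).card +
        (P.filter (fun p => a * p.1 + b * p.2 = c)).card + M) :
    SL R o M (Line a b c) := by
  have ho' : a * o.1 + b * o.2 ≠ c := ho
  refine ⟨a, b, c, rfl, ho', ?_, ?_⟩
  · obtain ⟨p, hp, q, hq, hpq, hpL, hqL⟩ := hsp
    exact ⟨p, hon p hp hpL, q, hon q hq hqL, hpq, hpL, hqL⟩
  · rcases lt_or_gt_of_ne ho' with h | h
    · have hγ : 0 < c - (a * o.1 + b * o.2) := by linarith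
      have key := strip_le hR ht (fun p => a * (p.1 - o.1) + b * (p.2 - o.2))
        (by
          intro p
          simp only [Prod.fst_sub, Prod.snd_sub, Prod.fst_add, Prod.snd_add]
          ring) hγ (by
          intro p hp hpe
          apply hon p hp
          show a * p.1 + b * p.2 = c
          linarith)
      have f1 : P.filter (fun p => c - (a * o.1 + b * o.2) < a * (p.1 - o.1) + b * (p.2 - o.2)) =
          P.filter (fun p => c < a * p.1 + b * p.2) := by
        apply filter_congr
        intro p _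
        constructor <;> intro h <;> linarith
      have f2 : P.filter (fun p => a * (p.1 - o.1) + b * (p.2 - o.2) = c - (a * o.1 + b * o.2)) =
          P.filter (fun p => a * p.1 + b * p.2 = c) := by
        apply filter_congr
        intro p _
        constructor <;> intro h <;> linarith
      have f3 : P.filter (fun p => a * (p.1 - o.1) + b * (p.2 - o.2) < c - (a * o.1 + b * o.2)) =
          P.filter (fun p => a * p.1 + b * p.2 < c) := by
        apply filter_congr
        intro p _
        constructor <;> intro h <;> linarith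
      rw [f1, f2, f3] at key
      rw [abs_of_pos hγ]
      omega
    · have hγ : 0 < (a * o.1 + b * o.2) - c := by linarith
      have key := strip_le hR ht (fun p => -(a * (p.1 - o.1) + b * (p.2 - o.2)))
        (by
          intro p
          simp only [Prod.fst_sub, Prod.snd_sub, Prod.fst_add, Prod.snd_add]
          ring) hγ (by
          intro p hp hpe
          apply hon p hp
          show a * p.1 + b * p.2 = c
          linarith)
      have f1 : P.filter (fun p => (a * o.1 + b * o.2) - c < -(a * (p.1 - o.1) + b * (p.2 - o.2))) =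
          P.filter (fun p => a * p.1 + b * p.2 < c) := by
        apply filter_congr
        intro p _
        constructor <;> intro h <;> linarith
      have f2 : P.filter (fun p => -(a * (p.1 - o.1) + b * (p.2 - o.2)) = (a * o.1 + b * o.2) - c) =
          P.filter (fun p => a * p.1 + b * p.2 = c) := by
        apply filter_congr
        intro p _
        constructor <;> intro h <;> linarith
      have f3 : P.filter (fun p => -(a * (p.1 - o.1) + b * (p.2 - o.2)) < (a * o.1 + b * o.2) - c) =
          P.filter (fun p => c < a * p.1 + b * p.2) := by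
        apply filter_congr
        intro p _
        constructor <;> intro h <;> linarith
      rw [f1, f2, f3] at key
      have f4 : R.filter (fun p => |(-(a * (p.1 - o.1) + b * (p.2 - o.2)))| < (a * o.1 + b * o.2) - c) =
          R.filter (fun p => |a * (p.1 - o.1) + b * (p.2 - o.2)| < |c - (a * o.1 + b * o.2)|) := by
        apply filter_congr
        intro p _
        rw [abs_neg, abs_sub_comm c, abs_of_pos hγ]
      rw [f4] at key
      omega

lemma two_le_on {P : Finset (ℝ × ℝ)} {a b c : ℝ}
    (hsp : ∃ p ∈ P, ∃ q ∈ P, p ≠ q ∧ p ∈ Line a b c ∧ q ∈ Line a b c) :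
    2 ≤ (P.filter (fun p => a * p.1 + b * p.2 = c)).card := by
  classical
  obtain ⟨p, hp, q, hq, hpq, hpL, hqL⟩ := hsp
  rw [← card_pair hpq]
  apply card_le_card
  intro x hx
  rw [mem_insert, mem_singleton] at hx
  rw [mem_filter]
  rcases hx with rfl | rfl
  · exact ⟨hp, hpL⟩
  · exact ⟨hq, hqL⟩

lemma card_R_le {P R : Finset (ℝ × ℝ)} {t : ℕ} (ht : (P \ R).card + (R \ P).card ≤ t) :
    R.card ≤ P.card + t := by
  classical
  have h1 : R ⊆ P ∪ (R \ P) := by
    intro p hp
    rw [mem_union, mem_sdiff]
    by_cases h : p ∈ P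
    · exact Or.inl h
    · exact Or.inr ⟨hp, h⟩
  have := (card_le_card h1).trans (card_union_le _ _)
  omega

open scoped Classical in
/-- **Bisectors** of a set which differs in `t` points from a centrally symmetric set. -/
theorem bisectors_le {P R : Finset (ℝ × ℝ)} {o : ℝ × ℝ} (hR : ∀ p ∈ R, o + o - p ∈ R) {t : ℕ}
    (ht : (P \ R).card + (R \ P).card ≤ t) :
    {L | IsBisector P L}.ncard ≤ (2 * t + 1) * (P.card + t) := by
  by_cases hfin : {L | IsBisector P L}.Finite
  swap
  · rw [Set.Infinite.ncard hfin]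
    exact Nat.zero_le _
  rw [Set.ncard_eq_toFinset_card _ hfin]
  set S := hfin.toFinset with hSdef
  have hmem : ∀ L, L ∈ S → IsBisector P L := fun L hL => by
    rw [hSdef, Set.Finite.mem_toFinset] at hL
    exact hL
  have h1 := lines_le (P := P) hR (t * R.card) S (by
    intro L hL
    obtain ⟨a, b, c, hab, hLe, hsp, -, -⟩ := hmem L hL
    exact ⟨a, b, c, hab, hLe, hsp⟩) (by
    intro S' hS' h
    rcases S'.eq_empty_or_nonempty with h0 | ⟨L0, hL0⟩
    · rw [h0, card_empty]
      exact Nat.zero_le _
    have hall : ∀ L ∈ S', 2 ≤ t ∧ SL R o (t - 2) L := by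
      intro L hL
      obtain ⟨a, b, c, hab, rfl, hsp, e1, e2⟩ := hmem L (hS' hL)
      have h2 := two_le_on hsp
      have ho := (h _ hL).1
      have hon := (h _ hL).2
      have hsl : SL R o ((P.filter (fun p => a * p.1 + b * p.2 = c)).card + t) (Line a b c) := by
        apply sl_of hR ht hab hsp ho hon <;> omega
      -- the strip contains a nonnegative number of points, so `2 ≤ t`
      have h3 : 2 ≤ t := by
        have ho' : a * o.1 + b * o.2 ≠ c := ho
        rcases lt_or_gt_of_ne ho' with hlt | hgt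
        · have hγ : 0 < c - (a * o.1 + b * o.2) := by linarith
          have key := strip_le hR ht (fun p => a * (p.1 - o.1) + b * (p.2 - o.2))
            (by
              intro p
              simp only [Prod.fst_sub, Prod.snd_sub, Prod.fst_add, Prod.snd_add]
              ring) hγ (by
              intro p hp hpe
              apply hon p hp
              show a * p.1 + b * p.2 = c
              linarith)
          have f1 : P.filter (fun p => c - (a * o.1 + b * o.2) < a * (p.1 - o.1) + b * (p.2 - o.2)) =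
              P.filter (fun p => c < a * p.1 + b * p.2) := by
            apply filter_congr
            intro p _
            constructor <;> intro h <;> linarith
          have f2 : P.filter (fun p => a * (p.1 - o.1) + b * (p.2 - o.2) = c - (a * o.1 + b * o.2)) =
              P.filter (fun p => a * p.1 + b * p.2 = c) := by
            apply filter_congr
            intro p _
            constructor <;> intro h <;> linarith
          have f3 : P.filter (fun p => a * (p.1 - o.1) + b * (p.2 - o.2) < c - (a * o.1 + b * o.2)) =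
              P.filter (fun p => a * p.1 + b * p.2 < c) := by
            apply filter_congr
            intro p _
            constructor <;> intro h <;> linarith
          rw [f1, f2, f3] at key
          omega
        · have hγ : 0 < (a * o.1 + b * o.2) - c := by linarith
          have key := strip_le hR ht (fun p => -(a * (p.1 - o.1) + b * (p.2 - o.2)))
            (by
              intro p
              simp only [Prod.fst_sub, Prod.snd_sub, Prod.fst_add, Prod.snd_add]
              ring) hγ (by
              intro p hp hpe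
              apply hon p hp
              show a * p.1 + b * p.2 = c
              linarith)
          have f1 : P.filter (fun p => (a * o.1 + b * o.2) - c < -(a * (p.1 - o.1) + b * (p.2 - o.2))) =
              P.filter (fun p => a * p.1 + b * p.2 < c) := by
            apply filter_congr
            intro p _
            constructor <;> intro h <;> linarith
          have f2 : P.filter (fun p => -(a * (p.1 - o.1) + b * (p.2 - o.2)) = (a * o.1 + b * o.2) - c) =
              P.filter (fun p => a * p.1 + b * p.2 = c) := by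
            apply filter_congr
            intro p _
            constructor <;> intro h <;> linarith
          have f3 : P.filter (fun p => -(a * (p.1 - o.1) + b * (p.2 - o.2)) < (a * o.1 + b * o.2) - c) =
              P.filter (fun p => c < a * p.1 + b * p.2) := by
            apply filter_congr
            intro p _
            constructor <;> intro h <;> linarith
          rw [f1, f2, f3] at key
          omega
      refine ⟨h3, ?_⟩
      apply sl_of hR ht hab hsp ho hon <;> omega
    have h2 := (hall L0 hL0).1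
    have h3 := card_le hR (t - 2) S' (fun L hL => (hall L hL).2)
    have h4 : 2 * ((t - 2) / 2 + 1) ≤ t := by omega
    calc S'.card ≤ 2 * R.card * ((t - 2) / 2 + 1) := h3
      _ = R.card * (2 * ((t - 2) / 2 + 1)) := by ring
      _ ≤ R.card * t := Nat.mul_le_mul_left _ h4
      _ = t * R.card := by ring)
  have h5 := card_R_le ht
  have h6 : (P \ R).card ≤ t := by omega
  calc S.card ≤ t * R.card + R.card + (P \ R).card * P.card := h1
    _ ≤ t * (P.card + t) + (P.card + t) + t * (P.card + t) := by
        have e1 := Nat.mul_le_mul_left t h5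
        have e2 : (P \ R).card * P.card ≤ t * (P.card + t) :=
          Nat.mul_le_mul h6 (by omega)
        omega
    _ = (2 * t + 1) * (P.card + t) := by ring

open scoped Classical in
/-- **`k`-lines**, `k` close to `|P| / 2`. -/
theorem klines_le {P R : Finset (ℝ × ℝ)} {o : ℝ × ℝ} (hR : ∀ p ∈ R, o + o - p ∈ R) {t : ℕ}
    (ht : (P \ R).card + (R \ P).card ≤ t) {k d : ℕ} (hk1 : P.card ≤ 2 * k + d)
    (hk2 : 2 * k ≤ P.card + d) :
    {L | IsKLine P k L}.ncard ≤ (d + 2 * t + 3) * (P.card + t) := by
  by_cases hfin : {L | IsKLine P k L}.Finite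
  swap
  · rw [Set.Infinite.ncard hfin]
    exact Nat.zero_le _
  rw [Set.ncard_eq_toFinset_card _ hfin]
  set S := hfin.toFinset with hSdef
  have hmem : ∀ L, L ∈ S → IsKLine P k L := fun L hL => by
    rw [hSdef, Set.Finite.mem_toFinset] at hL
    exact hL
  have h1 := lines_le (P := P) hR ((d + t + 2) * R.card) S (by
    intro L hL
    obtain ⟨a, b, c, hab, hLe, hsp, -⟩ := hmem L hL
    exact ⟨a, b, c, hab, hLe, hsp⟩) (by
    intro S' hS' h
    have h3 := card_le hR (d + t) S' (by
      intro L hL
      obtain ⟨a, b, c, hab, rfl, hsp, e1⟩ := hmem L (hS' hL)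
      have h2 := two_le_on hsp
      have hc := count_split P (fun p => a * p.1 + b * p.2) c
      apply sl_of hR ht hab hsp (h _ hL).1 (h _ hL).2 <;> omega)
    calc S'.card ≤ 2 * R.card * ((d + t) / 2 + 1) := h3
      _ = R.card * (2 * ((d + t) / 2 + 1)) := by ring
      _ ≤ R.card * (d + t + 2) := Nat.mul_le_mul_left _ (by omega)
      _ = (d + t + 2) * R.card := by ring)
  have h5 := card_R_le ht
  have h6 : (P \ R).card ≤ t := by omega
  calc S.card ≤ (d + t + 2) * R.card + R.card + (P \ R).card * P.card := h1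
    _ ≤ (d + t + 2) * (P.card + t) + (P.card + t) + t * (P.card + t) := by
        have e1 := Nat.mul_le_mul_left (d + t + 2) h5
        have e2 : (P \ R).card * P.card ≤ t * (P.card + t) :=
          Nat.mul_le_mul h6 (by omega)
        omega
    _ = (d + 2 * t + 3) * (P.card + t) := by ring

end Pool.Agent.U272.PS
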