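import Pool.Agent.U272.PS.Copies3
import Pool.Agent.U272.PS.Near

/-!
# Lower bounds for symmetric point sets
-/

set_option autoImplicit false

namespace Pool.Agent.U272.PS

open Finset Filter Topology KLev.Halving

/-- the points of the parabola -/
lemma exists_gp (n : ℕ) : ∃ P : Finset (ℝ × ℝ), P.card = n ∧ GeneralPosition P := by
  classical
  refine ⟨(range n).image (fun i : ℕ => ((i : ℝ), (i : ℝ) ^ 2)), ?_, ?_⟩
  · rw [card_image_of_injective, card_range]
    intro i j h
    have := congrArg Prod.fst h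
    simpa using this
  · intro a b c hab p hp q hq r hr hpq hpr hqr h
    rw [mem_image] at hp hq hr
    obtain ⟨i, -, rfl⟩ := hp
    obtain ⟨j, -, rfl⟩ := hq
    obtain ⟨k, -, rfl⟩ := hr
    simp only [Line, Set.mem_ofPred_eq] at h
    obtain ⟨h1, h2, h3⟩ := h
    have hij : (i : ℝ) - j ≠ 0 := by
      intro h
      apply hpq
      have : (i : ℝ) = j := by linarith
      rw [this]
    have hik : (i : ℝ) - k ≠ 0 := by
      intro h
      apply hpr
      have : (i : ℝ) = k := by linarith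
      rw [this]
    have hjk : (j : ℝ) - k ≠ 0 := by
      intro h
      apply hqr
      have : (j : ℝ) = k := by linarith
      rw [this]
    have e1 : ((i : ℝ) - j) * (a + b * (i + j)) = 0 := by linear_combination h1 - h2
    have e2 : ((i : ℝ) - k) * (a + b * (i + k)) = 0 := by linear_combination h1 - h3
    have e3 := (mul_eq_zero.1 e1).resolve_left hij
    have e4 := (mul_eq_zero.1 e2).resolve_left hik
    have e5 : b * ((j : ℝ) - k) = 0 := by linear_combination e3 - e4
    have hb := (mul_eq_zero.1 e5).resolve_right hjk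
    rw [hb] at e3
    rcases hab with h | h
    · apply h
      linarith
    · exact h hb

/-- a set with the maximum number of bisectors -/
lemma exists_max (n : ℕ) : ∃ Q : Finset (ℝ × ℝ), Q.card = n ∧ GeneralPosition Q ∧
    {L | IsBisector Q L}.ncard = f n := by
  have h := Nat.sSup_mem (s := {m : ℕ | ∃ P : Finset (ℝ × ℝ), P.card = n ∧ GeneralPosition P ∧
    {L | IsBisector P L}.ncard = m}) (by
      obtain ⟨P, h1, h2⟩ := exists_gp n
      exact ⟨_, P, h1, h2, rfl⟩) ⟨n * n, by
        rintro m ⟨Q, hQ, -, rfl⟩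
        rw [← hQ]; exact bisectors_ncard_le Q⟩
  exact h

lemma ζ_one_primitive (m : ℕ) [NeZero m] : ζ (1 : ZMod m) = Complex.exp (2 * Real.pi * Complex.I / m) := by
  unfold ζ
  have := ZMod.stdAddChar_coe (N := m) 1
  rw [Int.cast_one, Int.cast_one] at this
  rw [this, mul_one]

lemma lines_finite (P : Finset (ℝ × ℝ)) : {L : Set (ℝ × ℝ) | ∃ a b c : ℝ, (a ≠ 0 ∨ b ≠ 0) ∧
    L = Line a b c ∧ ∃ p ∈ P, ∃ q ∈ P, p ≠ q ∧ p ∈ L ∧ q ∈ L}.Finite := by
  classical
  refine (((P ×ˢ P : Finset _).finite_toSet).image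
    (fun z : (ℝ × ℝ) × (ℝ × ℝ) => Line (z.2.2 - z.1.2) (z.1.1 - z.2.1)
      ((z.2.2 - z.1.2) * z.1.1 + (z.1.1 - z.2.1) * z.1.2))).subset ?_
  rintro L ⟨a, b, c, hab, rfl, p, hp, q, hq, hpq, hpL, hqL⟩
  exact ⟨(p, q), by simp [hp, hq], (line_eq hab hpq hpL hqL).symm⟩

/-- the family of lines -/
lemma ncard_ge {m : ℕ} [NeZero m] {Q : Finset (ℝ × ℝ)}
    {F : ZMod m × Set (ℝ × ℝ) → Set (ℝ × ℝ)} (hF : Set.InjOn F {x | IsBisector Q x.2})
    {S : Set (Set (ℝ × ℝ))} (hS : S.Finite)
    (h : ∀ x : ZMod m × Set (ℝ × ℝ), IsBisector Q x.2 → F x ∈ S) :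
    m * {L | IsBisector Q L}.ncard ≤ S.ncard := by
  have h1 : ((Set.univ : Set (ZMod m)) ×ˢ {L | IsBisector Q L}).ncard =
      m * {L | IsBisector Q L}.ncard := by
    rw [Set.ncard_prod, Set.ncard_univ, Nat.card_eq_fintype_card, ZMod.card]
  rw [← h1]
  refine Set.ncard_le_ncard_of_injOn F ?_ ?_ hS
  · intro x hx
    exact h x hx.2
  · intro x hx y hy
    exact hF hx.2 hy.2

lemma im_ne {m : ℕ} [NeZero m] (hm : Odd m) (k : ZMod m) (hk : k ≠ 0) :
    ((ζ k - 1) * 1).im ≠ 0 := by
  rw [mul_one, Complex.sub_im, Complex.one_im, sub_zero]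
  intro h
  apply hk
  have h1 : ζ (-k) = ζ k := by
    rw [ζ_neg]
    apply Complex.ext
    · rw [Complex.conj_re]
    · rw [Complex.conj_im, h, neg_zero]
  have h2 := ζ_inj h1
  have h3 : (2 : ZMod m) * k = 0 := by
    linear_combination -h2
  have h4 : IsUnit (2 : ZMod m) := by
    have := (ZMod.isUnit_iff_coprime 2 m).2 (Nat.coprime_two_left.2 hm)
    simpa using this
  exact (h4.mul_right_eq_zero).1 h3

open scoped Classical in
lemma odd_count {m : ℕ} [NeZero m] (hm : Odd m) (σ : ℝ) (hσ : σ ≠ 0) :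
    (univ.filter (fun k : ZMod m => k ≠ 0 ∧ σ * ((ζ k - 1) * 1).im < 0)).card = (m - 1) / 2 ∧
    (univ.filter (fun k : ZMod m => k ≠ 0 ∧ 0 < σ * ((ζ k - 1) * 1).im)).card = (m - 1) / 2 := by
  have him : ∀ k : ZMod m, ((ζ (-k) - 1) * 1).im = -((ζ k - 1) * 1).im := by
    intro k
    rw [mul_one, mul_one, Complex.sub_im, Complex.sub_im, Complex.one_im, sub_zero, sub_zero,
      ζ_neg, Complex.conj_im]
  have h1 : (univ.filter (fun k : ZMod m => k ≠ 0 ∧ σ * ((ζ k - 1) * 1).im < 0)).card =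
      (univ.filter (fun k : ZMod m => k ≠ 0 ∧ 0 < σ * ((ζ k - 1) * 1).im)).card := by
    apply card_nbij' (fun k => -k) (fun k => -k)
    · intro k hk
      simp only [coe_filter, mem_univ, true_and, Set.mem_ofPred_eq] at hk ⊢
      refine ⟨fun h => hk.1 (neg_eq_zero.1 h), ?_⟩
      rw [him]
      linarith [hk.2]
    · intro k hk
      simp only [coe_filter, mem_univ, true_and, Set.mem_ofPred_eq] at hk ⊢
      refine ⟨fun h => hk.1 (neg_eq_zero.1 h), ?_⟩
      rw [him]
      linarith [hk.2]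
    · intro k _
      exact neg_neg k
    · intro k _
      exact neg_neg k
  have h2 : (univ.filter (fun k : ZMod m => k ≠ 0 ∧ σ * ((ζ k - 1) * 1).im < 0)).card +
      (univ.filter (fun k : ZMod m => k ≠ 0 ∧ 0 < σ * ((ζ k - 1) * 1).im)).card = m - 1 := by
    rw [← card_union_of_disjoint]
    · have : univ.filter (fun k : ZMod m => k ≠ 0 ∧ σ * ((ζ k - 1) * 1).im < 0) ∪
          univ.filter (fun k : ZMod m => k ≠ 0 ∧ 0 < σ * ((ζ k - 1) * 1).im) = univ.erase 0 := by
        ext k
        simp only [mem_union, mem_filter, mem_univ, true_and, mem_erase, and_true]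
        constructor
        · rintro (h | h)
          · exact h.1
          · exact h.1
        · intro h
          rcases lt_or_gt_of_ne (mul_ne_zero hσ (im_ne hm k h)) with h' | h'
          · exact Or.inl ⟨h, h'⟩
          · exact Or.inr ⟨h, h'⟩
      rw [this, card_erase_of_mem (mem_univ _), card_univ, ZMod.card]
    · rw [disjoint_left]
      intro k h h'
      rw [mem_filter] at h h'
      exact lt_asymm h.2.2 h'.2.2
  constructor <;> omega

lemma re_pos {m : ℕ} [NeZero m] (k : ZMod m) (hk : k ≠ 0) :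
    0 < ((ζ k - 1) * (-Complex.I)).im := by
  have h1 : ((ζ k - 1) * (-Complex.I)).im = 1 - (ζ k).re := by
    simp
  rw [h1]
  have h2 := ζ_circle k
  by_contra h
  push Not at h
  have h3 : 1 ≤ (ζ k).re := by linarith
  have h4 : (ζ k).re ^ 2 ≤ 1 := by nlinarith [sq_nonneg (ζ k).im]
  have h5 : (ζ k).re = 1 := by nlinarith
  have h6 : (ζ k).im = 0 := by
    rw [h5] at h2
    have : (ζ k).im ^ 2 = 0 := by linarith
    exact pow_eq_zero_iff two_ne_zero |>.1 this
  apply hk
  apply ζ_inj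
  rw [ζ_zero]
  apply Complex.ext
  · rw [h5, Complex.one_re]
  · rw [h6, Complex.one_im]

/-- **The lower bound for odd `m`.** -/
theorem odd_lower (m n : ℕ) (hm : Odd m) (hn : Even n) :
    ∃ P : Finset (ℝ × ℝ), P.card = m * n ∧ GeneralPosition P ∧
      (∀ z : ℂ, pl z ∈ P → pl (Complex.exp (2 * Real.pi * Complex.I / m) * z) ∈ P) ∧
      m * f n ≤ {L | IsBisector P L}.ncard := by
  have : NeZero m := ⟨by rintro rfl; simp at hm⟩
  obtain ⟨Q, hQ1, hQ2, hQ3⟩ := exists_max n
  obtain ⟨P, h1, h2, h3, F, hF, h4⟩ := exists_copies m 1 1 (mul_one 1) (fun k hk => im_ne hm k hk) Q hQ2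
  refine ⟨P, by rw [h1, hQ1], h2, ?_, ?_⟩
  · rw [← ζ_one_primitive]
    exact h3
  · rw [← hQ3]
    apply ncard_ge hF (bisectors_finite P)
    intro x hx
    obtain ⟨a, b, c, σ, hab, hσ, he, hsp, e1, e2⟩ := h4 x hx
    obtain ⟨c1, c2⟩ := odd_count hm σ hσ
    rw [c1] at e1
    rw [c2] at e2
    have hn2 : 2 ≤ Q.card := by
      obtain ⟨a, b, c, -, -, ⟨p, hp, q, hq, hpq, -⟩, -⟩ := hx
      exact Finset.one_lt_card.2 ⟨p, hp, q, hq, hpq⟩
    have hkey : (Q.card / 2 - 1) + Q.card * ((m - 1) / 2) = P.card / 2 - 1 := by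
      rw [h1]
      rw [hQ1] at hn2 ⊢
      obtain ⟨h, rfl⟩ := hn
      obtain ⟨r, rfl⟩ := hm
      have f1 : (h + h) / 2 = h := by omega
      have f2 : (2 * r + 1 - 1) / 2 = r := by omega
      have f3 : (2 * r + 1) * (h + h) / 2 = (2 * r + 1) * h := by
        have : (2 * r + 1) * (h + h) = 2 * ((2 * r + 1) * h) := by ring
        rw [this]
        exact Nat.mul_div_cancel_left _ (by norm_num)
      rw [f1, f2, f3]
      have f4 : (2 * r + 1) * h = (h + h) * r + h := by ring
      omega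
    rw [hkey] at e1 e2
    exact ⟨a, b, c, hab, he, hsp, e1, e2⟩

/-- **The lower bound for a level away from the middle.** -/
theorem level_lower (m n : ℕ) (hm : 1 ≤ m) :
    ∃ P : Finset (ℝ × ℝ), P.card = m * n ∧ GeneralPosition P ∧
      (∀ z : ℂ, pl z ∈ P → pl (Complex.exp (2 * Real.pi * Complex.I / m) * z) ∈ P) ∧
      m * f n ≤ {L | Pool.Agent.R117.KR.IsKLine P (n / 2 - 1) L}.ncard := by
  classical
  have : NeZero m := ⟨by omega⟩
  obtain ⟨Q, hQ1, hQ2, hQ3⟩ := exists_max n
  obtain ⟨P, h1, h2, h3, F, hF, h4⟩ := exists_copies m Complex.I (-Complex.I)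
    (by rw [mul_neg, Complex.I_mul_I, neg_neg]) (fun k hk => (re_pos k hk).ne') Q hQ2
  refine ⟨P, by rw [h1, hQ1], h2, ?_, ?_⟩
  · rw [← ζ_one_primitive]
    exact h3
  · rw [← hQ3]
    apply ncard_ge hF (Pool.Agent.R117.KR.kline_finite P _)
    intro x hx
    obtain ⟨a, b, c, σ, hab, hσ, he, hsp, e1, e2⟩ := h4 x hx
    rcases lt_or_gt_of_ne hσ with hσ | hσ
    · have h0 : univ.filter (fun k : ZMod m => k ≠ 0 ∧ 0 < σ * ((ζ k - 1) * (-Complex.I)).im) = ∅ := by
        rw [filter_eq_empty_iff]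
        rintro k - ⟨hk, h⟩
        have := mul_neg_of_neg_of_pos hσ (re_pos k hk)
        exact lt_asymm h this
      rw [h0, card_empty, mul_zero, add_zero, hQ1] at e2
      refine ⟨a, b, c, hab, he, hsp, ?_⟩
      convert e2 using 2
    · have h0 : univ.filter (fun k : ZMod m => k ≠ 0 ∧ σ * ((ζ k - 1) * (-Complex.I)).im < 0) = ∅ := by
        rw [filter_eq_empty_iff]
        rintro k - ⟨hk, h⟩
        have := mul_pos hσ (re_pos k hk)
        exact lt_asymm h this
      rw [h0, card_empty, mul_zero, add_zero, hQ1] at e1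
      refine ⟨-a, -b, -c, ?_, ?_, hsp, ?_⟩
      · rcases hab with h | h
        · exact Or.inl (neg_ne_zero.2 h)
        · exact Or.inr (neg_ne_zero.2 h)
      · rw [he]
        ext p
        simp only [Line, Pool.Agent.R117.KR.Line, Set.mem_ofPred_eq]
        constructor <;> intro h <;> linarith
      · rw [← e1]
        congr 1
        apply filter_congr
        intro p _
        constructor <;> intro h <;> linarith

end Pool.Agent.U272.PS
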