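import Pool.Agent.KLev.Halving

/-!
# `m` flattened copies of a point set around the vertices of a regular `m`-gon
-/

set_option autoImplicit false

namespace Pool.Agent.U272.PS

open Finset Filter Topology KLev.Halving

section basics

/-- the point of the plane -/
noncomputable def pl (z : ℂ) : ℝ × ℝ := (z.re, z.im)

lemma pl_inj {z w : ℂ} (h : pl z = pl w) : z = w := by
  unfold pl at h
  rw [Prod.mk.injEq] at h
  exact Complex.ext h.1 h.2

/-- the point of the copy at `1` -/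
noncomputable def Zp (τ : ℂ) (s ε : ℝ) (q : ℝ × ℝ) : ℂ :=
  1 + (((ε * (q.1 + s * q.2) : ℝ) : ℂ) + ((ε ^ 2 * q.2 : ℝ) : ℂ) * Complex.I) * τ

/-- the linear form of the line `a x + b y = c` in the copy at `1` -/
noncomputable def G (τ' : ℂ) (s ε a b c : ℝ) (z : ℂ) : ℝ :=
  a * ε * ((z - 1) * τ').re + (b - a * s) * ((z - 1) * τ').im - c * ε ^ 2

lemma G_own {τ τ' : ℂ} (hτ : τ * τ' = 1) (s ε a b c : ℝ) (q : ℝ × ℝ) :
    G τ' s ε a b c (Zp τ s ε q) = ε ^ 2 * (a * q.1 + b * q.2 - c) := by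
  have h1 : (Zp τ s ε q - 1) * τ' =
      ((ε * (q.1 + s * q.2) : ℝ) : ℂ) + ((ε ^ 2 * q.2 : ℝ) : ℂ) * Complex.I := by
    unfold Zp
    linear_combination (((ε * (q.1 + s * q.2) : ℝ) : ℂ) + ((ε ^ 2 * q.2 : ℝ) : ℂ) * Complex.I) * hτ
  unfold G
  rw [h1]
  simp only [Complex.add_re, Complex.ofReal_re, Complex.mul_re, Complex.I_re, mul_zero,
    Complex.ofReal_im, Complex.I_im, mul_one, sub_zero, add_zero, Complex.add_im,
    Complex.mul_im, zero_add, zero_mul, sub_self]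
  ring

lemma Zp_cont (τ : ℂ) (s : ℝ) (q : ℝ × ℝ) : Continuous (fun ε : ℝ => Zp τ s ε q) := by
  unfold Zp
  fun_prop

lemma Zp_zero (τ : ℂ) (s : ℝ) (q : ℝ × ℝ) : Zp τ s 0 q = 1 := by
  unfold Zp
  simp

lemma Zp_inj {τ τ' : ℂ} (hτ : τ * τ' = 1) {s ε : ℝ} (hε : 0 < ε) {q q' : ℝ × ℝ}
    (h : Zp τ s ε q = Zp τ s ε q') : q = q' := by
  have h1 : ∀ a b c : ℝ, a * q.1 + b * q.2 - c = a * q'.1 + b * q'.2 - c := by
    intro a b c
    have e1 := G_own hτ s ε a b c q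
    have e2 := G_own hτ s ε a b c q'
    rw [h, e2] at e1
    have hε2 : ε ^ 2 ≠ 0 := by positivity
    exact (mul_left_cancel₀ hε2 e1).symm
  have h2 := h1 1 0 0
  have h3 := h1 0 1 0
  exact Prod.ext (by linarith) (by linarith)

lemma G_lim (τ τ' : ℂ) (s a b c : ℝ) (w : ℂ) (q : ℝ × ℝ) :
    Tendsto (fun ε : ℝ => G τ' s ε a b c (w * Zp τ s ε q)) (𝓝[>] 0)
      (𝓝 ((b - a * s) * ((w - 1) * τ').im)) := by
  have hc : Continuous (fun ε : ℝ => G τ' s ε a b c (w * Zp τ s ε q)) := by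
    unfold G Zp
    fun_prop
  have h0 : G τ' s 0 a b c (w * Zp τ s 0 q) = (b - a * s) * ((w - 1) * τ').im := by
    rw [Zp_zero, mul_one]
    unfold G
    simp
  have := (hc.tendsto 0).mono_left (nhdsWithin_le_nhds (s := Set.Ioi (0 : ℝ)))
  rwa [h0] at this

lemma G_sign (τ τ' : ℂ) (s a b c : ℝ) (w : ℂ) (q : ℝ × ℝ)
    (h : (b - a * s) * ((w - 1) * τ').im ≠ 0) :
    ∀ᶠ ε : ℝ in 𝓝[>] 0, 0 < G τ' s ε a b c (w * Zp τ s ε q) * ((b - a * s) * ((w - 1) * τ').im) := by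
  have h1 := (G_lim τ τ' s a b c w q).mul_const ((b - a * s) * ((w - 1) * τ').im)
  have h2 : 0 < (b - a * s) * ((w - 1) * τ').im * ((b - a * s) * ((w - 1) * τ').im) :=
    mul_self_pos.2 h
  exact h1.eventually (lt_mem_nhds h2)

/-- twice the area of a triangle -/
noncomputable def dt (z1 z2 z3 : ℂ) : ℝ :=
  (z2.re - z1.re) * (z3.im - z1.im) - (z2.im - z1.im) * (z3.re - z1.re)

lemma sq_zero {x y : ℝ} (h : x ^ 2 + y ^ 2 = 0) : x = 0 ∧ y = 0 := by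
  have h1 := sq_nonneg x
  have h2 := sq_nonneg y
  have h3 : x ^ 2 = 0 := by linarith
  have h4 : y ^ 2 = 0 := by linarith
  exact ⟨pow_eq_zero_iff (two_ne_zero) |>.1 h3, pow_eq_zero_iff (two_ne_zero) |>.1 h4⟩

lemma circle_aux {x1 y1 u1 u2 v1 v2 : ℝ} (h : u1 * v2 - u2 * v1 = 0)
    (e2 : 2 * (x1 * u1 + y1 * u2) + (u1 ^ 2 + u2 ^ 2) = 0)
    (e3 : 2 * (x1 * v1 + y1 * v2) + (v1 ^ 2 + v2 ^ 2) = 0) (hN : u1 ^ 2 + u2 ^ 2 ≠ 0) :
    (v1 = 0 ∧ v2 = 0) ∨ (v1 = u1 ∧ v2 = u2) := by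
  have f1 : (u1 ^ 2 + u2 ^ 2) * v1 = (u1 * v1 + u2 * v2) * u1 := by
    linear_combination (-u2) * h
  have f2 : (u1 ^ 2 + u2 ^ 2) * v2 = (u1 * v1 + u2 * v2) * u2 := by
    linear_combination u1 * h
  have f3 : (u1 ^ 2 + u2 ^ 2) * (v1 ^ 2 + v2 ^ 2) = (u1 * v1 + u2 * v2) * (u1 ^ 2 + u2 ^ 2) := by
    linear_combination (u1 ^ 2 + u2 ^ 2) * e3 - 2 * x1 * f1 - 2 * y1 * f2 -
      (u1 * v1 + u2 * v2) * e2
  have f4 : v1 ^ 2 + v2 ^ 2 = u1 * v1 + u2 * v2 := by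
    have : (u1 ^ 2 + u2 ^ 2) * (v1 ^ 2 + v2 ^ 2) = (u1 ^ 2 + u2 ^ 2) * (u1 * v1 + u2 * v2) := by
      rw [f3]; ring
    exact mul_left_cancel₀ hN this
  have f5 : (u1 * v1 + u2 * v2) * ((u1 * v1 + u2 * v2) - (u1 ^ 2 + u2 ^ 2)) = 0 := by
    linear_combination v1 * (-f1) + v2 * (-f2) + (u1 ^ 2 + u2 ^ 2) * f4
  rcases mul_eq_zero.1 f5 with h0 | h0
  · rw [h0] at f4
    exact Or.inl (sq_zero f4)
  · have hD : u1 * v1 + u2 * v2 = u1 ^ 2 + u2 ^ 2 := by linarith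
    rw [hD] at f1 f2
    exact Or.inr ⟨mul_left_cancel₀ hN f1, mul_left_cancel₀ hN f2⟩

lemma dt_circle {z1 z2 z3 : ℂ} (h1 : z1.re ^ 2 + z1.im ^ 2 = 1) (h2 : z2.re ^ 2 + z2.im ^ 2 = 1)
    (h3 : z3.re ^ 2 + z3.im ^ 2 = 1) (h12 : z1 ≠ z2) (h13 : z1 ≠ z3) (h23 : z2 ≠ z3) :
    dt z1 z2 z3 ≠ 0 := by
  intro h
  unfold dt at h
  obtain ⟨x1, y1⟩ := z1
  obtain ⟨x2, y2⟩ := z2
  obtain ⟨x3, y3⟩ := z3
  simp only at h h1 h2 h3
  have hN : (x2 - x1) ^ 2 + (y2 - y1) ^ 2 ≠ 0 := by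
    intro hc
    obtain ⟨a1, a2⟩ := sq_zero hc
    apply h12
    apply Complex.ext
    · show x1 = x2
      linarith
    · show y1 = y2
      linarith
  rcases circle_aux (x1 := x1) (y1 := y1) h (by linear_combination h2 - h1)
    (by linear_combination h3 - h1) hN with ⟨a1, a2⟩ | ⟨a1, a2⟩
  · apply h13
    apply Complex.ext
    · show x1 = x3
      linarith
    · show y1 = y3
      linarith
  · apply h23
    apply Complex.ext
    · show x2 = x3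
      linarith
    · show y2 = y3
      linarith

/-- three points on a line -/
lemma dt_zero {A B C : ℝ} (h : A ≠ 0 ∨ B ≠ 0) {z1 z2 z3 : ℂ} (h1 : A * z1.re + B * z1.im = C)
    (h2 : A * z2.re + B * z2.im = C) (h3 : A * z3.re + B * z3.im = C) : dt z1 z2 z3 = 0 := by
  unfold dt
  have e2 : A * (z2.re - z1.re) + B * (z2.im - z1.im) = 0 := by linarith
  have e3 : A * (z3.re - z1.re) + B * (z3.im - z1.im) = 0 := by linarith
  have f1 : A * ((z2.re - z1.re) * (z3.im - z1.im) - (z2.im - z1.im) * (z3.re - z1.re)) = 0 := by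
    linear_combination (z3.im - z1.im) * e2 - (z2.im - z1.im) * e3
  have f2 : B * ((z2.re - z1.re) * (z3.im - z1.im) - (z2.im - z1.im) * (z3.re - z1.re)) = 0 := by
    linear_combination (z2.re - z1.re) * e3 - (z3.re - z1.re) * e2
  rcases h with h | h
  · exact (mul_eq_zero.1 f1).resolve_left h
  · exact (mul_eq_zero.1 f2).resolve_left h

lemma on_third {A B C : ℝ} {z1 z2 z3 : ℂ} (h12 : z1 ≠ z2) (h1 : A * z1.re + B * z1.im = C)
    (h2 : A * z2.re + B * z2.im = C) (hd : dt z1 z2 z3 = 0) : A * z3.re + B * z3.im = C := by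
  unfold dt at hd
  have e2 : A * (z2.re - z1.re) + B * (z2.im - z1.im) = 0 := by linarith
  have f1 : (z2.re - z1.re) * (A * (z3.re - z1.re) + B * (z3.im - z1.im)) = 0 := by
    linear_combination (z3.re - z1.re) * e2 + B * hd
  have f2 : (z2.im - z1.im) * (A * (z3.re - z1.re) + B * (z3.im - z1.im)) = 0 := by
    linear_combination (z3.im - z1.im) * e2 - A * hd
  have f3 : A * (z3.re - z1.re) + B * (z3.im - z1.im) = 0 := by
    by_contra hc
    apply h12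
    have a1 := (mul_eq_zero.1 f1).resolve_right hc
    have a2 := (mul_eq_zero.1 f2).resolve_right hc
    exact Complex.ext (by linarith) (by linarith)
  linarith

/-- the form `G` at `κ z` as a linear form in the coordinates of `z` -/
lemma G_form (τ' κ : ℂ) (s ε a b c : ℝ) (z : ℂ) :
    G τ' s ε a b c (κ * z) =
      (a * ε * (κ * τ').re + (b - a * s) * (κ * τ').im) * z.re +
      (-(a * ε * (κ * τ').im) + (b - a * s) * (κ * τ').re) * z.im -
      (c * ε ^ 2 + a * ε * τ'.re + (b - a * s) * τ'.im) := by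
  unfold G
  simp only [Complex.mul_re, Complex.mul_im, Complex.sub_re, Complex.sub_im, Complex.one_re,
    Complex.one_im]
  ring

lemma form_ne {τ' κ : ℂ} {s ε a b : ℝ} (hb : b - a * s ≠ 0) (hκ : κ * τ' ≠ 0) :
    (a * ε * (κ * τ').re + (b - a * s) * (κ * τ').im ≠ 0) ∨
      (-(a * ε * (κ * τ').im) + (b - a * s) * (κ * τ').re ≠ 0) := by
  by_contra hc
  push Not at hc
  obtain ⟨h1, h2⟩ := hc
  have h3 : ((a * ε) ^ 2 + (b - a * s) ^ 2) * ((κ * τ').re ^ 2 + (κ * τ').im ^ 2) = 0 := by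
    linear_combination (a * ε * (κ * τ').re + (b - a * s) * (κ * τ').im) * h1 +
      (-(a * ε * (κ * τ').im) + (b - a * s) * (κ * τ').re) * h2
  have h4 : 0 < (a * ε) ^ 2 + (b - a * s) ^ 2 := by positivity
  have h5 := (mul_eq_zero.1 h3).resolve_left h4.ne'
  apply hκ
  apply Complex.ext
  · rw [Complex.zero_re]
    nlinarith [sq_nonneg (κ * τ').re, sq_nonneg (κ * τ').im]
  · rw [Complex.zero_im]
    nlinarith [sq_nonneg (κ * τ').re, sq_nonneg (κ * τ').im]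

lemma exists_s (Q : Finset (ℝ × ℝ)) : ∃ s : ℝ, ∀ p ∈ Q, ∀ q ∈ Q, p ≠ q →
    (p.1 - q.1) + s * (p.2 - q.2) ≠ 0 := by
  classical
  obtain ⟨s, hs⟩ := Infinite.exists_notMem_finset
    ((Q ×ˢ Q).image (fun x : (ℝ × ℝ) × (ℝ × ℝ) => -(x.1.1 - x.2.1) / (x.1.2 - x.2.2)))
  refine ⟨s, fun p hp q hq hpq h => ?_⟩
  apply hs
  rw [mem_image]
  refine ⟨(p, q), mem_product.2 ⟨hp, hq⟩, ?_⟩
  have h2 : p.2 - q.2 ≠ 0 := by
    intro h2
    rw [h2, mul_zero, add_zero] at h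
    exact hpq (Prod.ext (by linarith) (by linarith))
  simp only
  rw [div_eq_iff h2]
  linarith

lemma slope_ne {s a b c : ℝ} (hab : a ≠ 0 ∨ b ≠ 0) {p q : ℝ × ℝ}
    (hs : (p.1 - q.1) + s * (p.2 - q.2) ≠ 0) (hp : a * p.1 + b * p.2 = c)
    (hq : a * q.1 + b * q.2 = c) : b - a * s ≠ 0 := by
  intro h
  have h1 : a * ((p.1 - q.1) + s * (p.2 - q.2)) = 0 := by
    linear_combination hp - hq - (p.2 - q.2) * h
  have ha := (mul_eq_zero.1 h1).resolve_right hs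
  rw [ha] at h
  rcases hab with h' | h'
  · exact h' ha
  · apply h'
    linarith

end basics

end Pool.Agent.U272.PS
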