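import Pool.Agent.U272.PS.Copies

/-!
# `m` flattened copies of a point set: general position
-/

set_option autoImplicit false

namespace Pool.Agent.U272.PS

open Finset Filter Topology KLev.Halving

section

variable {m : ℕ} [NeZero m]

/-- the `m`-th roots of unity -/
noncomputable def ζ (k : ZMod m) : ℂ := ZMod.stdAddChar k

lemma ζ_add (j k : ZMod m) : ζ (j + k) = ζ j * ζ k := by
  unfold ζ
  exact AddChar.map_add_eq_mul _ _ _

lemma ζ_zero : ζ (0 : ZMod m) = 1 := by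
  unfold ζ
  exact AddChar.map_zero_eq_one _

lemma ζ_inj {j k : ZMod m} (h : ζ j = ζ k) : j = k := ZMod.injective_stdAddChar h

lemma ζ_neg (k : ZMod m) : ζ (-k) = (starRingEnd ℂ) (ζ k) := by
  unfold ζ
  exact AddChar.map_neg_eq_conj _ _

lemma ζ_mul_neg (k : ZMod m) : ζ k * ζ (-k) = 1 := by
  rw [← ζ_add, add_neg_cancel, ζ_zero]

lemma ζ_ne_zero (k : ZMod m) : ζ k ≠ 0 := by
  intro h
  have := ζ_mul_neg k
  rw [h, zero_mul] at this
  exact zero_ne_one this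

lemma ζ_circle (k : ZMod m) : (ζ k).re ^ 2 + (ζ k).im ^ 2 = 1 := by
  have h := ζ_mul_neg k
  rw [ζ_neg, Complex.mul_conj] at h
  have h2 : Complex.normSq (ζ k) = 1 := by exact_mod_cast h
  rw [Complex.normSq_apply] at h2
  linarith

/-- the points -/
noncomputable def pt (τ : ℂ) (s ε : ℝ) (x : ZMod m × (ℝ × ℝ)) : ℂ := ζ x.1 * Zp τ s ε x.2

lemma pt_turn (τ : ℂ) (s ε : ℝ) (i : ZMod m) (x : ZMod m × (ℝ × ℝ)) :
    ζ (-i) * pt τ s ε x = ζ (x.1 - i) * Zp τ s ε x.2 := by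
  unfold pt
  rw [← mul_assoc, ← ζ_add, sub_eq_add_neg, add_comm]

/-- the conditions on the scale `ε` -/
structure Scale (m : ℕ) [NeZero m] (τ τ' : ℂ) (Q : Finset (ℝ × ℝ)) (s ε : ℝ) : Prop where
  pos : 0 < ε
  hτ : τ * τ' = 1
  sne : ∀ p ∈ Q, ∀ q ∈ Q, p ≠ q → (p.1 - q.1) + s * (p.2 - q.2) ≠ 0
  two : ∀ p ∈ Q, ∀ p' ∈ Q, p ≠ p' → ∀ k : ZMod m, k ≠ 0 → ∀ q ∈ Q,
    G τ' s ε (p'.2 - p.2) (p.1 - p'.1) ((p'.2 - p.2) * p.1 + (p.1 - p'.1) * p.2)
      (ζ k * Zp τ s ε q) ≠ 0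
  three : ∀ i j k : ZMod m, i ≠ j → i ≠ k → j ≠ k → ∀ q ∈ Q, ∀ q' ∈ Q, ∀ q'' ∈ Q,
    dt (pt τ s ε (i, q)) (pt τ s ε (j, q')) (pt τ s ε (k, q'')) ≠ 0
  far : ∀ k : ZMod m, k ≠ 0 → ∀ q ∈ Q, ∀ q' ∈ Q, ζ k * Zp τ s ε q ≠ Zp τ s ε q'

lemma eventually_scale (τ τ' : ℂ) (hτ : τ * τ' = 1)
    (hc : ∀ k : ZMod m, k ≠ 0 → ((ζ k - 1) * τ').im ≠ 0) (Q : Finset (ℝ × ℝ)) (s : ℝ)
    (hs : ∀ p ∈ Q, ∀ q ∈ Q, p ≠ q → (p.1 - q.1) + s * (p.2 - q.2) ≠ 0) :
    ∀ᶠ ε : ℝ in 𝓝[>] 0, Scale m τ τ' Q s ε := by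
  have h0 : ∀ᶠ ε : ℝ in 𝓝[>] 0, 0 < ε := self_mem_nhdsWithin
  have h2 : ∀ᶠ ε : ℝ in 𝓝[>] 0, ∀ p ∈ Q, ∀ p' ∈ Q, p ≠ p' → ∀ k : ZMod m, k ≠ 0 → ∀ q ∈ Q,
      G τ' s ε (p'.2 - p.2) (p.1 - p'.1) ((p'.2 - p.2) * p.1 + (p.1 - p'.1) * p.2)
        (ζ k * Zp τ s ε q) ≠ 0 := by
    rw [Filter.eventually_all_finset]
    intro p hp
    rw [Filter.eventually_all_finset]
    intro p' hp'
    by_cases hpp : p = p'
    · exact Filter.Eventually.of_forall fun ε h => absurd hpp h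
    have : ∀ᶠ ε : ℝ in 𝓝[>] 0, ∀ k : ZMod m, k ≠ 0 → ∀ q ∈ Q,
      G τ' s ε (p'.2 - p.2) (p.1 - p'.1) ((p'.2 - p.2) * p.1 + (p.1 - p'.1) * p.2)
        (ζ k * Zp τ s ε q) ≠ 0 := by
      rw [Filter.eventually_all]
      intro k
      by_cases hk : k = 0
      · exact Filter.Eventually.of_forall fun ε h => absurd hk h
      have : ∀ᶠ ε : ℝ in 𝓝[>] 0, ∀ q ∈ Q,
        G τ' s ε (p'.2 - p.2) (p.1 - p'.1) ((p'.2 - p.2) * p.1 + (p.1 - p'.1) * p.2)
          (ζ k * Zp τ s ε q) ≠ 0 := by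
        rw [Filter.eventually_all_finset]
        intro q _
        have hab : p'.2 - p.2 ≠ 0 ∨ p.1 - p'.1 ≠ 0 := by
          by_contra h
          push Not at h
          apply hpp
          exact Prod.ext (by linarith [h.2]) (by linarith [h.1])
        have hne := slope_ne (c := (p'.2 - p.2) * p.1 + (p.1 - p'.1) * p.2) hab
          (hs p hp p' hp' hpp) rfl (by ring)
        filter_upwards [G_sign τ τ' s (p'.2 - p.2) (p.1 - p'.1)
          ((p'.2 - p.2) * p.1 + (p.1 - p'.1) * p.2) (ζ k) q (mul_ne_zero hne (hc k hk))] with ε h h'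
        rw [h', zero_mul] at h
        exact lt_irrefl _ h
      filter_upwards [this] with ε h _
      exact h
    filter_upwards [this] with ε h _
    exact h
  have h3 : ∀ᶠ ε : ℝ in 𝓝[>] 0, ∀ i j k : ZMod m, i ≠ j → i ≠ k → j ≠ k → ∀ q ∈ Q, ∀ q' ∈ Q,
      ∀ q'' ∈ Q, dt (pt τ s ε (i, q)) (pt τ s ε (j, q')) (pt τ s ε (k, q'')) ≠ 0 := by
    rw [Filter.eventually_all]; intro i
    rw [Filter.eventually_all]; intro j
    rw [Filter.eventually_all]; intro k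
    by_cases hij : i = j
    · exact Filter.Eventually.of_forall fun ε h => absurd hij h
    by_cases hik : i = k
    · exact Filter.Eventually.of_forall fun ε _ h => absurd hik h
    by_cases hjk : j = k
    · exact Filter.Eventually.of_forall fun ε _ _ h => absurd hjk h
    have : ∀ᶠ ε : ℝ in 𝓝[>] 0, ∀ q ∈ Q, ∀ q' ∈ Q,
      ∀ q'' ∈ Q, dt (pt τ s ε (i, q)) (pt τ s ε (j, q')) (pt τ s ε (k, q'')) ≠ 0 := by
      rw [Filter.eventually_all_finset]; intro q _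
      rw [Filter.eventually_all_finset]; intro q' _
      rw [Filter.eventually_all_finset]; intro q'' _
      have hcont : Continuous (fun ε : ℝ =>
          dt (pt τ s ε (i, q)) (pt τ s ε (j, q')) (pt τ s ε (k, q''))) := by
        unfold dt pt Zp
        fun_prop
      have hz : dt (pt τ s 0 (i, q)) (pt τ s 0 (j, q')) (pt τ s 0 (k, q'')) ≠ 0 := by
        unfold pt
        rw [Zp_zero, Zp_zero, Zp_zero, mul_one, mul_one, mul_one]
        exact dt_circle (ζ_circle i) (ζ_circle j) (ζ_circle k) (fun h => hij (ζ_inj h))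
          (fun h => hik (ζ_inj h)) (fun h => hjk (ζ_inj h))
      exact ((hcont.tendsto 0).mono_left (nhdsWithin_le_nhds (s := Set.Ioi (0 : ℝ)))).eventually
        (isOpen_ne.mem_nhds hz)
    filter_upwards [this] with ε h _ _ _
    exact h
  have h4 : ∀ᶠ ε : ℝ in 𝓝[>] 0, ∀ k : ZMod m, k ≠ 0 → ∀ q ∈ Q, ∀ q' ∈ Q,
      ζ k * Zp τ s ε q ≠ Zp τ s ε q' := by
    rw [Filter.eventually_all]; intro k
    by_cases hk : k = 0
    · exact Filter.Eventually.of_forall fun ε h => absurd hk h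
    have : ∀ᶠ ε : ℝ in 𝓝[>] 0, ∀ q ∈ Q, ∀ q' ∈ Q, ζ k * Zp τ s ε q ≠ Zp τ s ε q' := by
      rw [Filter.eventually_all_finset]; intro q _
      rw [Filter.eventually_all_finset]; intro q' _
      have hcont : Continuous (fun ε : ℝ => ζ k * Zp τ s ε q - Zp τ s ε q') := by
        unfold Zp
        fun_prop
      have hz : ζ k * Zp τ s 0 q - Zp τ s 0 q' ≠ 0 := by
        rw [Zp_zero, Zp_zero, mul_one]
        intro h
        apply hk
        apply ζ_inj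
        rw [ζ_zero]
        exact sub_eq_zero.1 h
      filter_upwards [((hcont.tendsto 0).mono_left
        (nhdsWithin_le_nhds (s := Set.Ioi (0 : ℝ)))).eventually (isOpen_ne.mem_nhds hz)] with ε h h'
      exact h (sub_eq_zero.2 h')
    filter_upwards [this] with ε h _
    exact h
  filter_upwards [h0, h2, h3, h4] with ε e0 e2 e3 e4
  exact ⟨e0, hτ, hs, e2, e3, e4⟩

namespace Scale

variable {τ τ' : ℂ} {Q : Finset (ℝ × ℝ)} {s ε : ℝ}

lemma τ'_ne (h : Scale m τ τ' Q s ε) : τ' ≠ 0 := by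
  intro h0
  have := h.hτ
  rw [h0, mul_zero] at this
  exact zero_ne_one this

lemma pt_inj (h : Scale m τ τ' Q s ε) {x y : ZMod m × (ℝ × ℝ)} (hx : x.2 ∈ Q) (hy : y.2 ∈ Q)
    (he : pt τ s ε x = pt τ s ε y) : x = y := by
  have h1 := congrArg (fun z => ζ (-y.1) * z) he
  simp only [pt_turn] at h1
  rw [sub_self, ζ_zero, one_mul] at h1
  by_cases hk : x.1 - y.1 = 0
  · rw [hk, ζ_zero, one_mul] at h1
    exact Prod.ext (sub_eq_zero.1 hk) (Zp_inj h.hτ h.pos h1)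
  · exact absurd h1 (h.far _ hk _ hx _ hy)

/-- two points in one copy and a third point -/
lemma coll (h : Scale m τ τ' Q s ε) (hQ : GeneralPosition Q) {i : ZMod m} {p p' : ℝ × ℝ}
    (hp : p ∈ Q) (hp' : p' ∈ Q) (hpp : p ≠ p') {x : ZMod m × (ℝ × ℝ)} (hx : x.2 ∈ Q)
    (hx1 : x ≠ (i, p)) (hx2 : x ≠ (i, p')) : dt (pt τ s ε (i, p)) (pt τ s ε (i, p')) (pt τ s ε x) ≠ 0 := by
  intro hd
  set a := p'.2 - p.2 with ha
  set b := p.1 - p'.1 with hb
  set c := (p'.2 - p.2) * p.1 + (p.1 - p'.1) * p.2 with hc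
  have hab : a ≠ 0 ∨ b ≠ 0 := by
    by_contra h
    push Not at h
    apply hpp
    exact Prod.ext (by linarith [h.2]) (by linarith [h.1])
  have e1 : a * p.1 + b * p.2 = c := rfl
  have e2 : a * p'.1 + b * p'.2 = c := by rw [ha, hb, hc]; ring
  have g : ∀ z : ℂ, G τ' s ε a b c (ζ (-i) * z) = 0 ↔
      (a * ε * (ζ (-i) * τ').re + (b - a * s) * (ζ (-i) * τ').im) * z.re +
      (-(a * ε * (ζ (-i) * τ').im) + (b - a * s) * (ζ (-i) * τ').re) * z.im =
      (c * ε ^ 2 + a * ε * τ'.re + (b - a * s) * τ'.im) := by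
    intro z
    rw [G_form]
    constructor <;> intro h <;> linarith
  have g1 : G τ' s ε a b c (ζ (-i) * pt τ s ε (i, p)) = 0 := by
    rw [pt_turn, sub_self, ζ_zero, one_mul, G_own h.hτ]
    simp only
    rw [e1]; ring
  have g2 : G τ' s ε a b c (ζ (-i) * pt τ s ε (i, p')) = 0 := by
    rw [pt_turn, sub_self, ζ_zero, one_mul, G_own h.hτ]
    simp only
    rw [e2]; ring
  have hne : pt τ s ε (i, p) ≠ pt τ s ε (i, p') := by
    intro he
    have := h.pt_inj (x := (i, p)) (y := (i, p')) hp hp' he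
    exact hpp (congrArg Prod.snd this)
  have g3 := (g (pt τ s ε x)).2 (on_third hne ((g _).1 g1) ((g _).1 g2) hd)
  rw [pt_turn] at g3
  by_cases hk : x.1 - i = 0
  · rw [hk, ζ_zero, one_mul, G_own h.hτ] at g3
    have hε2 : ε ^ 2 ≠ 0 := by have := h.pos; positivity
    have g4 := (mul_eq_zero.1 g3).resolve_left hε2
    have hxi : x.1 = i := sub_eq_zero.1 hk
    refine hQ a b c hab p hp p' hp' x.2 hx hpp ?_ ?_ ⟨e1, e2, ?_⟩
    · intro he
      exact hx1 (Prod.ext hxi he.symm)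
    · intro he
      exact hx2 (Prod.ext hxi he.symm)
    · show a * x.2.1 + b * x.2.2 = c
      linarith
  · exact h.two p hp p' hp' hpp _ hk _ hx g3

end Scale

/-- the set of the `m` copies -/
noncomputable def PP (m : ℕ) [NeZero m] (τ : ℂ) (Q : Finset (ℝ × ℝ)) (s ε : ℝ) : Finset (ℝ × ℝ) := by
  classical
  exact ((univ : Finset (ZMod m)) ×ˢ Q).image (fun x => pl (pt τ s ε x))

lemma mem_PP {τ : ℂ} {Q : Finset (ℝ × ℝ)} {s ε : ℝ} {p : ℝ × ℝ} :
    p ∈ PP m τ Q s ε ↔ ∃ x : ZMod m × (ℝ × ℝ), x.2 ∈ Q ∧ pl (pt τ s ε x) = p := by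
  classical
  unfold PP
  rw [mem_image]
  constructor
  · rintro ⟨x, hx, rfl⟩
    exact ⟨x, (mem_product.1 hx).2, rfl⟩
  · rintro ⟨x, hx, rfl⟩
    exact ⟨x, mem_product.2 ⟨mem_univ _, hx⟩, rfl⟩

namespace Scale

variable {τ τ' : ℂ} {Q : Finset (ℝ × ℝ)} {s ε : ℝ}

lemma card_PP (h : Scale m τ τ' Q s ε) : (PP m τ Q s ε).card = m * Q.card := by
  classical
  unfold PP
  rw [card_image_of_injOn, card_product, card_univ, ZMod.card]
  intro x hx y hy he
  rw [mem_coe, mem_product] at hx hy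
  exact h.pt_inj hx.2 hy.2 (pl_inj he)

lemma gp (h : Scale m τ τ' Q s ε) (hQ : GeneralPosition Q) : GeneralPosition (PP m τ Q s ε) := by
  intro A B C hAB p hp q hq r hr hpq hpr hqr hL
  obtain ⟨x, hx, rfl⟩ := mem_PP.1 hp
  obtain ⟨y, hy, rfl⟩ := mem_PP.1 hq
  obtain ⟨z, hz, rfl⟩ := mem_PP.1 hr
  obtain ⟨e1, e2, e3⟩ := hL
  have hxy : x ≠ y := fun h => hpq (by rw [h])
  have hxz : x ≠ z := fun h => hpr (by rw [h])
  have hyz : y ≠ z := fun h => hqr (by rw [h])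
  have e1' : A * (pt τ s ε x).re + B * (pt τ s ε x).im = C := e1
  have e2' : A * (pt τ s ε y).re + B * (pt τ s ε y).im = C := e2
  have e3' : A * (pt τ s ε z).re + B * (pt τ s ε z).im = C := e3
  by_cases h1 : x.1 = y.1
  · have hx' : x = (x.1, x.2) := rfl
    have hy' : y = (x.1, y.2) := by rw [h1]
    have hne : x.2 ≠ y.2 := fun h => hxy (Prod.ext h1 h)
    have := h.coll hQ (i := x.1) hx hy hne hz hxz.symm (by rw [← hy']; exact hyz.symm)
    apply this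
    rw [← hy']
    exact dt_zero hAB e1' e2' e3'
  by_cases h2 : x.1 = z.1
  · have hz' : z = (x.1, z.2) := by rw [h2]
    have hne : x.2 ≠ z.2 := fun h => hxz (Prod.ext h2 h)
    have := h.coll hQ (i := x.1) hx hz hne hy hxy.symm (by rw [← hz']; exact hyz)
    apply this
    rw [← hz']
    exact dt_zero hAB e1' e3' e2'
  by_cases h3 : y.1 = z.1
  · have hz' : z = (y.1, z.2) := by rw [h3]
    have hne : y.2 ≠ z.2 := fun h => hyz (Prod.ext h3 h)
    have := h.coll hQ (i := y.1) hy hz hne hx hxy (by rw [← hz']; exact hxz)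
    apply this
    rw [← hz']
    exact dt_zero hAB e2' e3' e1'
  exact h.three x.1 y.1 z.1 h1 h2 h3 x.2 hx y.2 hy z.2 hz (dt_zero hAB e1' e2' e3')

end Scale

end

end Pool.Agent.U272.PS
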