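import Pool.Agent.U272.PS.Copies2

/-!
# `m` flattened copies of a point set: the lines
-/

set_option autoImplicit false

namespace Pool.Agent.U272.PS

open Finset Filter Topology KLev.Halving

section

variable {m : ℕ} [NeZero m]

lemma sum_split (N0 n : ℕ) (T : ZMod m → ℕ) (S : Finset (ZMod m)) (h0 : T 0 = N0)
    (hS : (0 : ZMod m) ∉ S) (h1 : ∀ k ∈ S, T k = n) (h2 : ∀ k, k ≠ 0 → k ∉ S → T k = 0) :
    ∑ k, T k = N0 + n * S.card := by
  classical
  rw [← Finset.add_sum_erase _ _ (mem_univ (0 : ZMod m)), h0]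
  congr 1
  have hsub : S ⊆ univ.erase (0 : ZMod m) := by
    intro k hk
    rw [mem_erase]
    exact ⟨fun h => hS (h ▸ hk), mem_univ _⟩
  rw [← Finset.sum_subset hsub]
  · rw [Finset.sum_congr rfl h1, sum_const, smul_eq_mul, mul_comm]
  · intro k hk hk2
    exact h2 k (mem_erase.1 hk).1 hk2

open scoped Classical in
lemma shift_count (Q : Finset (ℝ × ℝ)) (i : ZMod m) (F : ZMod m → ℝ × ℝ → Prop) :
    (((univ : Finset (ZMod m)) ×ˢ Q).filter (fun x => F (x.1 - i) x.2)).card =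
      ∑ k, (Q.filter (fun q => F k q)).card := by
  rw [card_filter, sum_product]
  rw [← Equiv.sum_comp (Equiv.subRight i) (fun k => (Q.filter (fun q => F k q)).card)]
  apply sum_congr rfl
  intro k _
  rw [card_filter]
  rfl

/-- the coefficients of the line -/
noncomputable def cA (τ' : ℂ) (s ε a b : ℝ) (i : ZMod m) : ℝ :=
  a * ε * (ζ (-i) * τ').re + (b - a * s) * (ζ (-i) * τ').im

/-- the coefficients of the line -/
noncomputable def cB (τ' : ℂ) (s ε a b : ℝ) (i : ZMod m) : ℝ :=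
  -(a * ε * (ζ (-i) * τ').im) + (b - a * s) * (ζ (-i) * τ').re

/-- the coefficients of the line -/
noncomputable def cC (τ' : ℂ) (s ε a b c : ℝ) : ℝ := c * ε ^ 2 + a * ε * τ'.re + (b - a * s) * τ'.im

lemma coef (τ τ' : ℂ) (s ε a b c : ℝ) (i : ZMod m) (x : ZMod m × (ℝ × ℝ)) :
    cA τ' s ε a b i * (pl (pt τ s ε x)).1 + cB τ' s ε a b i * (pl (pt τ s ε x)).2 -
      cC τ' s ε a b c = G τ' s ε a b c (ζ (x.1 - i) * Zp τ s ε x.2) := by
  rw [← pt_turn, G_form]
  rfl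

/-- the sign condition -/
def Sg (m : ℕ) [NeZero m] (τ τ' : ℂ) (Q : Finset (ℝ × ℝ)) (s ε a b c : ℝ) : Prop :=
  ∀ k : ZMod m, k ≠ 0 → ∀ q ∈ Q,
    0 < G τ' s ε a b c (ζ k * Zp τ s ε q) * ((b - a * s) * ((ζ k - 1) * τ').im)

lemma eventually_Sg (τ τ' : ℂ) (hc : ∀ k : ZMod m, k ≠ 0 → ((ζ k - 1) * τ').im ≠ 0)
    (Q : Finset (ℝ × ℝ)) (s a b c : ℝ) (hb : b - a * s ≠ 0) :
    ∀ᶠ ε : ℝ in 𝓝[>] 0, Sg m τ τ' Q s ε a b c := by
  unfold Sg
  rw [Filter.eventually_all]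
  intro k
  by_cases hk : k = 0
  · exact Filter.Eventually.of_forall fun ε h => absurd hk h
  have : ∀ᶠ ε : ℝ in 𝓝[>] 0, ∀ q ∈ Q,
      0 < G τ' s ε a b c (ζ k * Zp τ s ε q) * ((b - a * s) * ((ζ k - 1) * τ').im) := by
    rw [Filter.eventually_all_finset]
    intro q _
    exact G_sign τ τ' s a b c (ζ k) q (mul_ne_zero hb (hc k hk))
  filter_upwards [this] with ε h _
  exact h

namespace Scale

variable {τ τ' : ℂ} {Q : Finset (ℝ × ℝ)} {s ε : ℝ}

open scoped Classical in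
lemma filter_PP (h : Scale m τ τ' Q s ε) (p : ℝ × ℝ → Prop) :
    ((PP m τ Q s ε).filter p).card =
      (((univ : Finset (ZMod m)) ×ˢ Q).filter (fun x => p (pl (pt τ s ε x)))).card := by
  have he : (PP m τ Q s ε).filter p =
      (((univ : Finset (ZMod m)) ×ˢ Q).filter (fun x => p (pl (pt τ s ε x)))).image
        (fun x => pl (pt τ s ε x)) := by
    ext y
    rw [mem_filter, mem_PP, mem_image]
    constructor
    · rintro ⟨⟨x, hx, rfl⟩, hy⟩
      exact ⟨x, mem_filter.2 ⟨mem_product.2 ⟨mem_univ _, hx⟩, hy⟩, rfl⟩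
    · rintro ⟨x, hx, rfl⟩
      rw [mem_filter, mem_product] at hx
      exact ⟨⟨x, hx.1.2, rfl⟩, hx.2⟩
  rw [he, card_image_of_injOn]
  intro x hx y hy hxy
  rw [mem_coe, mem_filter, mem_product] at hx hy
  exact h.pt_inj hx.1.2 hy.1.2 (pl_inj hxy)

lemma mem_line (h : Scale m τ τ' Q s ε) {a b c : ℝ} (i : ZMod m) (q : ℝ × ℝ) :
    pl (pt τ s ε (i, q)) ∈ Line (cA τ' s ε a b i) (cB τ' s ε a b i) (cC τ' s ε a b c) ↔
      q ∈ Line a b c := by
  have h1 := coef τ τ' s ε a b c i (i, q)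
  rw [sub_self, ζ_zero, one_mul, G_own h.hτ] at h1
  have hε2 : ε ^ 2 ≠ 0 := by have := h.pos; positivity
  simp only [Line, Set.mem_ofPred_eq]
  simp only at h1
  constructor
  · intro h2
    rw [h2, sub_self] at h1
    have := (mul_eq_zero.1 h1.symm).resolve_left hε2
    linarith
  · intro h2
    rw [h2, sub_self, mul_zero] at h1
    linarith

open scoped Classical in
lemma count_lo (h : Scale m τ τ' Q s ε) {a b c : ℝ} (hs : Sg m τ τ' Q s ε a b c) (i : ZMod m) :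
    ((PP m τ Q s ε).filter (fun p => cA τ' s ε a b i * p.1 + cB τ' s ε a b i * p.2 <
      cC τ' s ε a b c)).card =
      (Q.filter (fun p => a * p.1 + b * p.2 < c)).card +
        Q.card * (univ.filter (fun k : ZMod m => k ≠ 0 ∧
          (b - a * s) * ((ζ k - 1) * τ').im < 0)).card := by
  rw [h.filter_PP]
  have h1 : ((univ : Finset (ZMod m)) ×ˢ Q).filter (fun x =>
      cA τ' s ε a b i * (pl (pt τ s ε x)).1 + cB τ' s ε a b i * (pl (pt τ s ε x)).2 <
        cC τ' s ε a b c) =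
      ((univ : Finset (ZMod m)) ×ˢ Q).filter (fun x =>
        (fun (k : ZMod m) (q : ℝ × ℝ) => G τ' s ε a b c (ζ k * Zp τ s ε q) < 0) (x.1 - i) x.2) := by
    apply filter_congr
    intro x _
    simp only
    rw [← coef]
    exact sub_neg.symm
  rw [h1]
  refine (shift_count Q i (fun (k : ZMod m) (q : ℝ × ℝ) =>
    G τ' s ε a b c (ζ k * Zp τ s ε q) < 0)).trans ?_
  apply sum_split
  · congr 1
    apply filter_congr
    intro q _
    rw [ζ_zero, one_mul, G_own h.hτ]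
    have hε2 : 0 < ε ^ 2 := by have := h.pos; positivity
    constructor
    · intro h2
      by_contra h3
      push Not at h3
      have := mul_nonneg hε2.le (sub_nonneg.2 h3)
      linarith
    · intro h2
      exact mul_neg_of_pos_of_neg hε2 (sub_neg.2 h2)
  · simp
  · intro k hk
    rw [mem_filter] at hk
    congr 1
    apply filter_true_of_mem
    intro q hq
    have h2 := hs k hk.2.1 q hq
    by_contra h3
    push Not at h3
    have := mul_nonpos_of_nonneg_of_nonpos h3 hk.2.2.le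
    linarith
  · intro k hk hk2
    rw [card_eq_zero]
    apply filter_false_of_mem
    intro q hq h3
    apply hk2
    rw [mem_filter]
    refine ⟨mem_univ _, hk, ?_⟩
    have h2 := hs k hk q hq
    by_contra h4
    push Not at h4
    have := mul_nonpos_of_nonpos_of_nonneg h3.le h4
    linarith

open scoped Classical in
lemma count_hi (h : Scale m τ τ' Q s ε) {a b c : ℝ} (hs : Sg m τ τ' Q s ε a b c) (i : ZMod m) :
    ((PP m τ Q s ε).filter (fun p => cC τ' s ε a b c <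
      cA τ' s ε a b i * p.1 + cB τ' s ε a b i * p.2)).card =
      (Q.filter (fun p => c < a * p.1 + b * p.2)).card +
        Q.card * (univ.filter (fun k : ZMod m => k ≠ 0 ∧
          0 < (b - a * s) * ((ζ k - 1) * τ').im)).card := by
  rw [h.filter_PP]
  have h1 : ((univ : Finset (ZMod m)) ×ˢ Q).filter (fun x => cC τ' s ε a b c <
      cA τ' s ε a b i * (pl (pt τ s ε x)).1 + cB τ' s ε a b i * (pl (pt τ s ε x)).2) =
      ((univ : Finset (ZMod m)) ×ˢ Q).filter (fun x =>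
        (fun (k : ZMod m) (q : ℝ × ℝ) => 0 < G τ' s ε a b c (ζ k * Zp τ s ε q)) (x.1 - i) x.2) := by
    apply filter_congr
    intro x _
    simp only
    rw [← coef]
    exact sub_pos.symm
  rw [h1]
  refine (shift_count Q i (fun (k : ZMod m) (q : ℝ × ℝ) =>
    0 < G τ' s ε a b c (ζ k * Zp τ s ε q))).trans ?_
  apply sum_split
  · congr 1
    apply filter_congr
    intro q _
    rw [ζ_zero, one_mul, G_own h.hτ]
    have hε2 : 0 < ε ^ 2 := by have := h.pos; positivity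
    constructor
    · intro h2
      by_contra h3
      push Not at h3
      have := mul_nonpos_of_nonneg_of_nonpos hε2.le (sub_nonpos.2 h3)
      linarith
    · intro h2
      exact mul_pos hε2 (sub_pos.2 h2)
  · simp
  · intro k hk
    rw [mem_filter] at hk
    congr 1
    apply filter_true_of_mem
    intro q hq
    have h2 := hs k hk.2.1 q hq
    by_contra h3
    push Not at h3
    have := mul_nonpos_of_nonpos_of_nonneg h3 hk.2.2.le
    linarith
  · intro k hk hk2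
    rw [card_eq_zero]
    apply filter_false_of_mem
    intro q hq h3
    apply hk2
    rw [mem_filter]
    refine ⟨mem_univ _, hk, ?_⟩
    have h2 := hs k hk q hq
    by_contra h4
    push Not at h4
    have := mul_nonpos_of_nonneg_of_nonpos h3.le h4
    linarith

end Scale

lemma line_unique' {a b c a' b' c' : ℝ} (h : a ≠ 0 ∨ b ≠ 0) (h' : a' ≠ 0 ∨ b' ≠ 0)
    {p q : ℝ × ℝ} (hpq : p ≠ q) (hp : p ∈ Line a b c) (hq : q ∈ Line a b c)
    (hp' : p ∈ Line a' b' c') (hq' : q ∈ Line a' b' c') : Line a b c = Line a' b' c' := by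
  rw [line_eq h hpq hp hq, line_eq h' hpq hp' hq']

open scoped Classical in
/-- The `m` copies. -/
theorem exists_copies (m : ℕ) [NeZero m] (τ τ' : ℂ) (hτ : τ * τ' = 1)
    (hc : ∀ k : ZMod m, k ≠ 0 → ((ζ k - 1) * τ').im ≠ 0) (Q : Finset (ℝ × ℝ))
    (hQ : GeneralPosition Q) :
    ∃ P : Finset (ℝ × ℝ), P.card = m * Q.card ∧ GeneralPosition P ∧
      (∀ z : ℂ, pl z ∈ P → pl (ζ (1 : ZMod m) * z) ∈ P) ∧
      ∃ F : ZMod m × Set (ℝ × ℝ) → Set (ℝ × ℝ),
        Set.InjOn F {x | IsBisector Q x.2} ∧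
        ∀ x : ZMod m × Set (ℝ × ℝ), IsBisector Q x.2 → ∃ a b c σ : ℝ, (a ≠ 0 ∨ b ≠ 0) ∧ σ ≠ 0 ∧
          F x = Line a b c ∧
          (∃ p ∈ P, ∃ q ∈ P, p ≠ q ∧ p ∈ F x ∧ q ∈ F x) ∧
          (P.filter (fun p => a * p.1 + b * p.2 < c)).card = (Q.card / 2 - 1) +
            Q.card * (univ.filter (fun k : ZMod m => k ≠ 0 ∧
              σ * ((ζ k - 1) * τ').im < 0)).card ∧
          (P.filter (fun p => c < a * p.1 + b * p.2)).card = (Q.card / 2 - 1) +
            Q.card * (univ.filter (fun k : ZMod m => k ≠ 0 ∧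
              0 < σ * ((ζ k - 1) * τ').im)).card := by
  obtain ⟨s, hs⟩ := exists_s Q
  -- representatives
  have hrep : ∀ L : Set (ℝ × ℝ), ∃ v : ℝ × ℝ × ℝ, IsBisector Q L →
      (v.1 ≠ 0 ∨ v.2.1 ≠ 0) ∧ L = Line v.1 v.2.1 v.2.2 ∧
      (∃ p ∈ Q, ∃ q ∈ Q, p ≠ q ∧ p ∈ L ∧ q ∈ L) ∧
      (Q.filter (fun p => v.1 * p.1 + v.2.1 * p.2 < v.2.2)).card = Q.card / 2 - 1 ∧
      (Q.filter (fun p => v.2.2 < v.1 * p.1 + v.2.1 * p.2)).card = Q.card / 2 - 1 := by
    intro L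
    by_cases hL : IsBisector Q L
    · obtain ⟨a, b, c, h1, h2, h3, h4, h5⟩ := hL
      exact ⟨(a, b, c), fun _ => ⟨h1, h2, h3, h4, h5⟩⟩
    · exact ⟨(0, 0, 0), fun h => absurd h hL⟩
  choose v hv using hrep
  have hslope : ∀ L : Set (ℝ × ℝ), IsBisector Q L → (v L).2.1 - (v L).1 * s ≠ 0 := by
    intro L hL
    obtain ⟨h1, h2, ⟨p, hp, q, hq, hpq, hpL, hqL⟩, -, -⟩ := hv L hL
    rw [h2] at hpL hqL
    exact slope_ne h1 (hs p hp q hq hpq) hpL hqL
  have hev : ∀ᶠ ε : ℝ in 𝓝[>] 0, ∀ L ∈ (bisectors_finite Q).toFinset,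
      Sg m τ τ' Q s ε (v L).1 (v L).2.1 (v L).2.2 := by
    rw [Filter.eventually_all_finset]
    intro L hL
    rw [Set.Finite.mem_toFinset] at hL
    exact eventually_Sg τ τ' hc Q s _ _ _ (hslope L hL)
  obtain ⟨ε, hε, hsg⟩ := ((eventually_scale τ τ' hτ hc Q s hs).and hev).exists
  have hsg' : ∀ L, IsBisector Q L → Sg m τ τ' Q s ε (v L).1 (v L).2.1 (v L).2.2 := by
    intro L hL
    exact hsg L ((Set.Finite.mem_toFinset _).2 hL)
  set F : ZMod m × Set (ℝ × ℝ) → Set (ℝ × ℝ) := fun x =>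
    Line (cA τ' s ε (v x.2).1 (v x.2).2.1 x.1) (cB τ' s ε (v x.2).1 (v x.2).2.1 x.1)
      (cC τ' s ε (v x.2).1 (v x.2).2.1 (v x.2).2.2) with hF
  have hmemF : ∀ (i : ZMod m) (L : Set (ℝ × ℝ)), IsBisector Q L → ∀ q : ℝ × ℝ,
      (pl (pt τ s ε (i, q)) ∈ F (i, L) ↔ q ∈ L) := by
    intro i L hL q
    obtain ⟨h1, h2, -⟩ := hv L hL
    rw [hF]
    simp only
    rw [hε.mem_line]
    rw [← h2]
  have hne : ∀ (i : ZMod m) (L : Set (ℝ × ℝ)), IsBisector Q L →
      (cA τ' s ε (v L).1 (v L).2.1 i ≠ 0 ∨ cB τ' s ε (v L).1 (v L).2.1 i ≠ 0) := by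
    intro i L hL
    exact form_ne (hslope L hL) (mul_ne_zero (ζ_ne_zero _) hε.τ'_ne)
  have hptne : ∀ (i : ZMod m) {p q : ℝ × ℝ}, p ∈ Q → q ∈ Q → p ≠ q →
      pl (pt τ s ε (i, p)) ≠ pl (pt τ s ε (i, q)) := by
    intro i p q hp hq hpq he
    have := hε.pt_inj (x := (i, p)) (y := (i, q)) hp hq (pl_inj he)
    exact hpq (congrArg Prod.snd this)
  refine ⟨PP m τ Q s ε, hε.card_PP, hε.gp hQ, ?_, F, ?_, ?_⟩
  · intro z hz
    obtain ⟨x, hx, hxz⟩ := mem_PP.1 hz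
    have := pl_inj hxz
    rw [mem_PP]
    refine ⟨(1 + x.1, x.2), hx, ?_⟩
    rw [← this]
    congr 1
    unfold pt
    rw [ζ_add, mul_assoc]
  · rintro ⟨i, L⟩ hL ⟨j, L'⟩ hL' he
    simp only [Set.mem_ofPred_eq] at hL hL'
    obtain ⟨h1, h2, ⟨p, hp, q, hq, hpq, hpL, hqL⟩, -, -⟩ := hv L hL
    obtain ⟨h1', h2', ⟨p', hp', q', hq', hpq', hpL', hqL'⟩, -, -⟩ := hv L' hL'
    have e1 := (hmemF i L hL p).2 hpL
    have e2 := (hmemF i L hL q).2 hqL
    have e1' := (hmemF j L' hL' p').2 hpL'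
    have e2' := (hmemF j L' hL' q').2 hqL'
    rw [← he] at e1' e2'
    by_cases hij : i = j
    · subst hij
      have g1 := (hmemF i L hL p').1 e1'
      have g2 := (hmemF i L hL q').1 e2'
      have : L = L' := by
        rw [h2] at g1 g2 ⊢
        rw [h2'] at hpL' hqL' ⊢
        exact line_unique' h1 h1' hpq' g1 g2 hpL' hqL'
      rw [this]
    · exfalso
      have hP : ∀ (i : ZMod m) (q : ℝ × ℝ), q ∈ Q → pl (pt τ s ε (i, q)) ∈ PP m τ Q s ε := by
        intro i q hq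
        exact mem_PP.2 ⟨(i, q), hq, rfl⟩
      have hd : ∀ (q : ℝ × ℝ), q ∈ Q → pl (pt τ s ε (i, q)) ≠ pl (pt τ s ε (j, p')) := by
        intro q hq he
        have := hε.pt_inj (x := (i, q)) (y := (j, p')) hq hp' (pl_inj he)
        exact hij (congrArg Prod.fst this)
      exact hε.gp hQ _ _ _ (hne i L hL) _ (hP i p hp) _ (hP i q hq) _ (hP j p' hp')
        (hptne i hp hq hpq) (hd p hp) (hd q hq) ⟨e1, e2, e1'⟩
  · rintro ⟨i, L⟩ hL
    simp only at hL
    obtain ⟨h1, h2, ⟨p, hp, q, hq, hpq, hpL, hqL⟩, h4, h5⟩ := hv L hL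
    refine ⟨_, _, _, (v L).2.1 - (v L).1 * s, hne i L hL, hslope L hL, rfl, ?_, ?_, ?_⟩
    · exact ⟨_, mem_PP.2 ⟨(i, p), hp, rfl⟩, _, mem_PP.2 ⟨(i, q), hq, rfl⟩, hptne i hp hq hpq,
        (hmemF i L hL p).2 hpL, (hmemF i L hL q).2 hqL⟩
    · rw [hε.count_lo (hsg' L hL) i, h4]
    · rw [hε.count_hi (hsg' L hL) i, h5]

end

end Pool.Agent.U272.PS
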