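import Pool.Agent.U272.PS.Strip
import Pool.Agent.R117.KR.Lines

/-!
# The number of lines spanned by a centrally symmetric set with few points in their strip
-/

set_option autoImplicit false

namespace Pool.Agent.U272.PS

open Finset Pool.Agent.R117.KR

open scoped Classical in
/-- `L` is a line through two points of `R` but not through `o`, such that at most `M` points of `R`
are strictly between `L` and its mirror image in the point `o`. -/
def SL (R : Finset (ℝ × ℝ)) (o : ℝ × ℝ) (M : ℕ) (L : Set (ℝ × ℝ)) : Prop :=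
  ∃ a b c : ℝ, L = Line a b c ∧ a * o.1 + b * o.2 ≠ c ∧
    (∃ p ∈ R, ∃ q ∈ R, p ≠ q ∧ p ∈ L ∧ q ∈ L) ∧
    (R.filter (fun p => |a * (p.1 - o.1) + b * (p.2 - o.2)| < |c - (a * o.1 + b * o.2)|)).card ≤ M

/-- data of a line -/
structure Dat (R : Finset (ℝ × ℝ)) (o : ℝ × ℝ) (L : Set (ℝ × ℝ)) (a b c : ℝ) (z w : ℝ × ℝ) : Prop where
  eqL : L = Line a b c
  ne : a * o.1 + b * o.2 ≠ c
  zR : z ∈ R
  wR : w ∈ R
  zL : a * z.1 + b * z.2 = c
  wL : a * w.1 + b * w.2 = c
  wz : w ≠ z
  nrm : (w - o).1 ^ 2 + (w - o).2 ^ 2 ≤ (z - o).1 ^ 2 + (z - o).2 ^ 2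

lemma exists_dat {R : Finset (ℝ × ℝ)} {o : ℝ × ℝ} {L : Set (ℝ × ℝ)} {a b c : ℝ} (h1 : L = Line a b c)
    (h2 : a * o.1 + b * o.2 ≠ c) (h3 : ∃ p ∈ R, ∃ q ∈ R, p ≠ q ∧ p ∈ L ∧ q ∈ L) :
    ∃ z w, Dat R o L a b c z w := by
  obtain ⟨p, hp, q, hq, hpq, hpL, hqL⟩ := h3
  rw [h1] at hpL hqL
  have hpL' : a * p.1 + b * p.2 = c := hpL
  have hqL' : a * q.1 + b * q.2 = c := hqL
  rcases le_total ((q - o).1 ^ 2 + (q - o).2 ^ 2) ((p - o).1 ^ 2 + (p - o).2 ^ 2) with h | h
  · exact ⟨p, q, h1, h2, hp, hq, hpL', hqL', hpq.symm, h⟩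
  · exact ⟨q, p, h1, h2, hq, hp, hqL', hpL', hpq, h⟩

namespace Dat

variable {R : Finset (ℝ × ℝ)} {o : ℝ × ℝ} {L L' : Set (ℝ × ℝ)} {a b c a' b' c' : ℝ} {z w w' : ℝ × ℝ}

lemma nondeg (h : Dat R o L a b c z w) : a ≠ 0 ∨ b ≠ 0 := by
  by_contra hc
  push Not at hc
  obtain ⟨rfl, rfl⟩ := hc
  apply h.ne
  rw [← h.zL]
  ring

lemma e1 (h : Dat R o L a b c z w) : a * (z - o).1 + b * (z - o).2 = c - (a * o.1 + b * o.2) := by
  have := h.zL
  rw [Prod.fst_sub, Prod.snd_sub]
  linarith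

lemma e2 (h : Dat R o L a b c z w) : a * (w - o).1 + b * (w - o).2 = c - (a * o.1 + b * o.2) := by
  have := h.wL
  rw [Prod.fst_sub, Prod.snd_sub]
  linarith

lemma nz (h : Dat R o L a b c z w) : a * (z - o).1 + b * (z - o).2 ≠ 0 := by
  rw [h.e1]
  exact sub_ne_zero.2 (Ne.symm h.ne)

lemma Xne (h : Dat R o L a b c z w) : X (z - o) (w - o) ≠ 0 := by
  apply X_ne_zero (a := a) (b := b) (by rw [h.e1, h.e2]) h.nz
  intro h1
  exact h.wz (sub_left_injective h1)

/-- two lines through `z` and a common second point are equal -/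
lemma eq_of_mem (h : Dat R o L a b c z w) (h' : Dat R o L' a' b' c' z w')
    (hm : a' * w.1 + b' * w.2 = c') : L = L' := by
  rw [h.eqL, h'.eqL]
  exact line_unique h.nondeg h'.nondeg h.wz (by exact h.wL) (by exact h.zL) (by exact hm)
    (by exact h'.zL)

lemma strip' (h : Dat R o L a b c z w) (h' : Dat R o L' a' b' c' z w')
    (hs : 0 < X (z - o) (w - o) * X (z - o) (w' - o))
    (hK : K (z - o) (w' - o) < K (z - o) (w - o)) :
    |a' * (w - o).1 + b' * (w - o).2| < |c' - (a' * o.1 + b' * o.2)| := by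
  have := strip (a := a') (b := b') (Z := z - o) (W1 := w - o) (W2 := w' - o)
    (by rw [h'.e1, h'.e2]) h'.nz hs h.nrm h'.nrm hK
  rwa [h'.e1] at this

lemma same' (h : Dat R o L a b c z w) (h' : Dat R o L' a' b' c' z w')
    (hs : 0 < X (z - o) (w - o) * X (z - o) (w' - o))
    (hK : K (z - o) (w' - o) = K (z - o) (w - o)) : L = L' := by
  have h1 := same (a := a') (b := b') (Z := z - o) (W1 := w - o) (W2 := w' - o)
    (by rw [h'.e1, h'.e2]) hs h.nrm hK
  rw [h'.e1, Prod.fst_sub, Prod.snd_sub] at h1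
  apply h.eq_of_mem h'
  linarith

end Dat

open scoped Classical in
/-- **The count.** A centrally symmetric set `R` spans at most `2 |R| (M / 2 + 1)` lines that do not
pass through the centre and have at most `M` points of `R` in their strip. -/
theorem card_le {R : Finset (ℝ × ℝ)} {o : ℝ × ℝ} (hR : ∀ p ∈ R, o + o - p ∈ R) (M : ℕ)
    (S : Finset (Set (ℝ × ℝ))) (hS : ∀ L ∈ S, SL R o M L) : S.card ≤ 2 * R.card * (M / 2 + 1) := by
  have hch : ∀ L : Set (ℝ × ℝ), ∃ d : (ℝ × ℝ × ℝ) × (ℝ × ℝ) × (ℝ × ℝ), L ∈ S →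
      Dat R o L d.1.1 d.1.2.1 d.1.2.2 d.2.1 d.2.2 ∧
      (R.filter (fun p => |d.1.1 * (p.1 - o.1) + d.1.2.1 * (p.2 - o.2)| <
        |d.1.2.2 - (d.1.1 * o.1 + d.1.2.1 * o.2)|)).card ≤ M := by
    intro L
    by_cases hL : L ∈ S
    · obtain ⟨a, b, c, h1, h2, h3, h4⟩ := hS L hL
      obtain ⟨z, w, hd⟩ := exists_dat h1 h2 h3
      exact ⟨((a, b, c), z, w), fun _ => ⟨hd, h4⟩⟩
    · exact ⟨((0, 0, 0), (0, 0), (0, 0)), fun h => absurd h hL⟩
  choose d hd using hch
  -- the map
  set g : Set (ℝ × ℝ) → (ℝ × ℝ) × Bool := fun L =>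
    ((d L).2.1, decide (0 < X ((d L).2.1 - o) ((d L).2.2 - o))) with hg
  have himg : (S.image g).card ≤ 2 * R.card := by
    have h1 : S.image g ⊆ R ×ˢ (univ : Finset Bool) := by
      intro x hx
      rw [mem_image] at hx
      obtain ⟨L, hL, rfl⟩ := hx
      rw [mem_product]
      exact ⟨(hd L hL).1.zR, mem_univ _⟩
    refine (card_le_card h1).trans ?_
    rw [card_product, card_univ, Fintype.card_bool]
    omega
  have hfib : ∀ x ∈ S.image g, (S.filter (fun L => g L = x)).card ≤ M / 2 + 1 := by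
    intro x _
    set F := S.filter (fun L => g L = x) with hF
    rcases F.eq_empty_or_nonempty with h0 | hne
    · rw [h0, card_empty]; omega
    obtain ⟨L2, hL2, hmin⟩ := F.exists_min_image
      (fun L => K ((d L).2.1 - o) ((d L).2.2 - o)) hne
    have hFS : ∀ L ∈ F, L ∈ S := fun L hL => (mem_filter.1 hL).1
    have hFz : ∀ L ∈ F, (d L).2.1 = x.1 := fun L hL => by
      have := (mem_filter.1 hL).2
      exact congrArg Prod.fst this
    have hFs : ∀ L ∈ F, ∀ L' ∈ F,
        0 < X (x.1 - o) ((d L).2.2 - o) * X (x.1 - o) ((d L').2.2 - o) := by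
      intro L hL L' hL'
      have h1 := congrArg Prod.snd (mem_filter.1 hL).2
      have h2 := congrArg Prod.snd (mem_filter.1 hL').2
      have h3 : decide (0 < X ((d L).2.1 - o) ((d L).2.2 - o)) =
        decide (0 < X ((d L').2.1 - o) ((d L').2.2 - o)) := by
        rw [hg] at h1 h2
        exact h1.trans h2.symm
      rw [hFz L hL, hFz L' hL', decide_eq_decide] at h3
      have n1 := (hd L (hFS L hL)).1.Xne
      have n2 := (hd L' (hFS L' hL')).1.Xne
      rw [hFz L hL] at n1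
      rw [hFz L' hL'] at n2
      rcases lt_or_gt_of_ne n1 with h4 | h4
      · have h5 : ¬ 0 < X (x.1 - o) ((d L').2.2 - o) := fun h => absurd (h3.2 h) (by linarith)
        have h6 : X (x.1 - o) ((d L').2.2 - o) < 0 := lt_of_le_of_ne (not_lt.1 h5) n2
        nlinarith
      · exact mul_pos h4 (h3.1 h4)
    have hD : ∀ L ∈ F, Dat R o L (d L).1.1 (d L).1.2.1 (d L).1.2.2 x.1 (d L).2.2 := by
      intro L hL
      have := (hd L (hFS L hL)).1
      rwa [hFz L hL] at this
    have hKne : ∀ L ∈ F, ∀ L' ∈ F, L ≠ L' →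
        K (x.1 - o) ((d L').2.2 - o) ≠ K (x.1 - o) ((d L).2.2 - o) :=
      fun L hL L' hL' hne h => hne ((hD L hL).same' (hD L' hL') (hFs L hL L' hL') h)
    -- the points in the strip of `L2`
    set A := (F.erase L2).image (fun L => (d L).2.2) with hA
    set B := (F.erase L2).image (fun L => o + o - (d L).2.2) with hB
    have hstrip : ∀ L ∈ F.erase L2, |(d L2).1.1 * ((d L).2.2 - o).1 + (d L2).1.2.1 * ((d L).2.2 - o).2| <
        |(d L2).1.2.2 - ((d L2).1.1 * o.1 + (d L2).1.2.1 * o.2)| := by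
      intro L hL
      obtain ⟨hne2, hLF⟩ := mem_erase.1 hL
      have h1 := hmin L hLF
      rw [hFz L hLF, hFz L2 hL2] at h1
      exact (hD L hLF).strip' (hD L2 hL2) (hFs L hLF L2 hL2)
        (lt_of_le_of_ne h1 (hKne L hLF L2 hL2 hne2))
    have hcA : A.card = F.card - 1 := by
      rw [hA, card_image_of_injOn, card_erase_of_mem hL2]
      intro L hL L' hL' h
      rw [mem_coe, mem_erase] at hL hL'
      simp only at h
      apply (hD L hL.2).eq_of_mem (hD L' hL'.2)
      rw [h]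
      exact (hD L' hL'.2).wL
    have hcB : B.card = F.card - 1 := by
      rw [hB, card_image_of_injOn, card_erase_of_mem hL2]
      intro L hL L' hL' h
      rw [mem_coe, mem_erase] at hL hL'
      simp only at h
      have h' : (d L).2.2 = (d L').2.2 := sub_right_injective h
      apply (hD L hL.2).eq_of_mem (hD L' hL'.2)
      rw [h']
      exact (hD L' hL'.2).wL
    have hAB : Disjoint A B := by
      rw [disjoint_left]
      intro p hpA hpB
      rw [hA, mem_image] at hpA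
      rw [hB, mem_image] at hpB
      obtain ⟨L, hL, h1⟩ := hpA
      obtain ⟨L', hL', h2⟩ := hpB
      rw [mem_erase] at hL hL'
      have h3 : (d L).2.2 - o = -((d L').2.2 - o) := by
        rw [h1, ← h2]; abel
      have h31 : ((d L).2.2 - o).1 = -((d L').2.2 - o).1 := by rw [h3]; rfl
      have h32 : ((d L).2.2 - o).2 = -((d L').2.2 - o).2 := by rw [h3]; rfl
      have key : ∀ L ∈ F, ∀ L' ∈ F, ((d L).2.2 - o).1 = -((d L').2.2 - o).1 →
          ((d L).2.2 - o).2 = -((d L').2.2 - o).2 →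
          K (x.1 - o) ((d L').2.2 - o) < K (x.1 - o) ((d L).2.2 - o) → False := by
        intro L hL L' hL' e1 e2 hK
        have s1 := (hD L hL).strip' (hD L' hL') (hFs L hL L' hL') hK
        have s2 := (hD L' hL').e2
        have s3 : (d L').1.1 * ((d L).2.2 - o).1 + (d L').1.2.1 * ((d L).2.2 - o).2 =
            -((d L').1.2.2 - ((d L').1.1 * o.1 + (d L').1.2.1 * o.2)) := by
          rw [e1, e2, ← s2]; ring
        rw [s3, abs_neg] at s1
        exact lt_irrefl _ s1
      by_cases hLL : L = L'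
      · subst hLL
        have t1 : ((d L).2.2 - o).1 = 0 := by linarith
        have t2 : ((d L).2.2 - o).2 = 0 := by linarith
        have t3 := (hD L hL.2).e2
        rw [t1, t2] at t3
        apply (hD L hL.2).ne
        linarith
      · rcases lt_trichotomy (K (x.1 - o) ((d L').2.2 - o)) (K (x.1 - o) ((d L).2.2 - o)) with h | h | h
        · exact key L hL.2 L' hL'.2 h31 h32 h
        · exact hKne L hL.2 L' hL'.2 hLL h
        · exact key L' hL'.2 L hL.2 (by linarith) (by linarith) h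
    have hsub : A ∪ B ⊆ R.filter (fun p => |(d L2).1.1 * (p.1 - o.1) + (d L2).1.2.1 * (p.2 - o.2)| <
        |(d L2).1.2.2 - ((d L2).1.1 * o.1 + (d L2).1.2.1 * o.2)|) := by
      intro p hp
      rw [mem_union, hA, hB, mem_image, mem_image] at hp
      rw [mem_filter]
      rcases hp with ⟨L, hL, rfl⟩ | ⟨L, hL, rfl⟩
      · exact ⟨(hD L (mem_erase.1 hL).2).wR, hstrip L hL⟩
      · refine ⟨hR _ (hD L (mem_erase.1 hL).2).wR, ?_⟩
        have h1 := hstrip L hL
        rw [Prod.fst_sub, Prod.snd_sub] at h1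
        have h2 : (d L2).1.1 * ((o + o - (d L).2.2).1 - o.1) + (d L2).1.2.1 * ((o + o - (d L).2.2).2 - o.2) =
            -((d L2).1.1 * ((d L).2.2.1 - o.1) + (d L2).1.2.1 * ((d L).2.2.2 - o.2)) := by
          simp only [Prod.fst_sub, Prod.snd_sub, Prod.fst_add, Prod.snd_add]
          ring
        rw [h2, abs_neg]
        exact h1
    have hfin := (card_le_card hsub).trans (hd L2 (hFS L2 hL2)).2
    rw [card_union_of_disjoint hAB, hcA, hcB] at hfin
    have : 0 < F.card := card_pos.2 hne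
    omega
  have := Finset.card_le_mul_card_image (f := g) S (M / 2 + 1) (by
    intro x hx
    exact hfib x hx)
  calc S.card ≤ (M / 2 + 1) * (S.image g).card := this
    _ ≤ (M / 2 + 1) * (2 * R.card) := Nat.mul_le_mul_left _ himg
    _ = 2 * R.card * (M / 2 + 1) := by ring

end Pool.Agent.U272.PS
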