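import Mathlib

/-!
# Lines spanned by a centrally symmetric set with few points in the strip between them and their mirror image
-/

set_option autoImplicit false

namespace Pool.Agent.U272.PS

open Finset

/-- cross product -/
def X (Z W : ℝ × ℝ) : ℝ := Z.1 * W.2 - Z.2 * W.1

/-- the absolute value of the cotangent of the angle at `Z` in the triangle `0 Z W` -/
noncomputable def K (Z W : ℝ × ℝ) : ℝ := (Z.1 ^ 2 + Z.2 ^ 2 - (Z.1 * W.1 + Z.2 * W.2)) / |X Z W|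

lemma X_ne_zero {a b : ℝ} {Z W : ℝ × ℝ} (h : a * W.1 + b * W.2 = a * Z.1 + b * Z.2)
    (h0 : a * Z.1 + b * Z.2 ≠ 0) (hZW : W ≠ Z) : X Z W ≠ 0 := by
  intro hX
  unfold X at hX
  have hN : Z.1 ^ 2 + Z.2 ^ 2 ≠ 0 := by
    intro h1
    have h2 : Z.1 = 0 := by nlinarith [sq_nonneg Z.1, sq_nonneg Z.2]
    have h3 : Z.2 = 0 := by nlinarith [sq_nonneg Z.1, sq_nonneg Z.2]
    exact h0 (by rw [h2, h3]; ring)
  -- W = s Z with s = D / N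
  have e1 : (Z.1 ^ 2 + Z.2 ^ 2) * W.1 = (Z.1 * W.1 + Z.2 * W.2) * Z.1 := by
    linear_combination (-Z.2) * hX
  have e2 : (Z.1 ^ 2 + Z.2 ^ 2) * W.2 = (Z.1 * W.1 + Z.2 * W.2) * Z.2 := by
    linear_combination Z.1 * hX
  have e3 : (Z.1 ^ 2 + Z.2 ^ 2 - (Z.1 * W.1 + Z.2 * W.2)) * (a * Z.1 + b * Z.2) = 0 := by
    linear_combination a * e1 + b * e2 - (Z.1 ^ 2 + Z.2 ^ 2) * h
  have e4 := (mul_eq_zero.1 e3).resolve_right h0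
  apply hZW
  have e5 : Z.1 * W.1 + Z.2 * W.2 = Z.1 ^ 2 + Z.2 ^ 2 := by linarith
  rw [e5] at e1 e2
  exact Prod.ext (mul_left_cancel₀ hN e1) (mul_left_cancel₀ hN e2)

/-- the value of the linear form of the line through `Z`, `W₂` at `W₁` -/
lemma value {a b : ℝ} {Z W1 W2 : ℝ × ℝ} (h : a * W2.1 + b * W2.2 = a * Z.1 + b * Z.2)
    (hs : 0 < X Z W1 * X Z W2) :
    (Z.1 ^ 2 + Z.2 ^ 2) * (a * W1.1 + b * W1.2) =
      (a * Z.1 + b * Z.2) * ((Z.1 * W1.1 + Z.2 * W1.2) + |X Z W1| * K Z W2) := by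
  have hX2 : X Z W2 ≠ 0 := by
    intro h0
    rw [h0, mul_zero] at hs
    exact lt_irrefl _ hs
  have hq : |X Z W1| * K Z W2 =
      X Z W1 * (Z.1 ^ 2 + Z.2 ^ 2 - (Z.1 * W2.1 + Z.2 * W2.2)) / X Z W2 := by
    unfold K
    rcases lt_or_gt_of_ne hX2 with h2 | h2
    · have h1 : X Z W1 < 0 := by
        by_contra hc
        push Not at hc
        nlinarith
      rw [abs_of_neg h2, abs_of_neg h1]
      field_simp
    · have h1 : 0 < X Z W1 := by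
        by_contra hc
        push Not at hc
        nlinarith
      rw [abs_of_pos h2, abs_of_pos h1]
      field_simp
  rw [hq]
  have hb : X Z W2 * (a * (-Z.2) + b * Z.1) =
      (a * Z.1 + b * Z.2) * (Z.1 ^ 2 + Z.2 ^ 2 - (Z.1 * W2.1 + Z.2 * W2.2)) := by
    unfold X
    linear_combination (Z.1 ^ 2 + Z.2 ^ 2) * h
  have hv : (Z.1 ^ 2 + Z.2 ^ 2) * (a * W1.1 + b * W1.2) =
      (a * Z.1 + b * Z.2) * (Z.1 * W1.1 + Z.2 * W1.2) + X Z W1 * (a * (-Z.2) + b * Z.1) := by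
    unfold X
    ring
  rw [hv, mul_add (a * Z.1 + b * Z.2) (Z.1 * W1.1 + Z.2 * W1.2)]
  congr 1
  rw [mul_div_assoc', eq_div_iff hX2]
  linear_combination X Z W1 * hb

lemma cauchy {Z W : ℝ × ℝ} : (Z.1 * W.1 + Z.2 * W.2) ^ 2 + X Z W ^ 2 =
    (Z.1 ^ 2 + Z.2 ^ 2) * (W.1 ^ 2 + W.2 ^ 2) := by
  unfold X
  ring

lemma D_abs_lt {Z W : ℝ × ℝ} (hX : X Z W ≠ 0) (hn : W.1 ^ 2 + W.2 ^ 2 ≤ Z.1 ^ 2 + Z.2 ^ 2) :
    |Z.1 * W.1 + Z.2 * W.2| < Z.1 ^ 2 + Z.2 ^ 2 := by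
  have h1 := cauchy (Z := Z) (W := W)
  have h2 : 0 < X Z W ^ 2 := by positivity
  have h3 : 0 ≤ Z.1 ^ 2 + Z.2 ^ 2 := by positivity
  apply abs_lt_of_sq_lt_sq _ h3
  nlinarith

lemma K_pos {Z W : ℝ × ℝ} (hX : X Z W ≠ 0) (hn : W.1 ^ 2 + W.2 ^ 2 ≤ Z.1 ^ 2 + Z.2 ^ 2) :
    0 < K Z W := by
  have h1 := (abs_lt.1 (D_abs_lt hX hn)).2
  unfold K
  apply div_pos (by linarith) (abs_pos.2 hX)

lemma K_mul {Z W : ℝ × ℝ} (hX : X Z W ≠ 0) :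
    |X Z W| * K Z W = Z.1 ^ 2 + Z.2 ^ 2 - (Z.1 * W.1 + Z.2 * W.2) := by
  unfold K
  field_simp [abs_ne_zero.2 hX]

/-- **The strip lemma.** Two lines through `Z`, on the same side; the one with the smaller cotangent
has the second point of the other one strictly inside its strip. -/
lemma strip {a b : ℝ} {Z W1 W2 : ℝ × ℝ} (h : a * W2.1 + b * W2.2 = a * Z.1 + b * Z.2)
    (h0 : a * Z.1 + b * Z.2 ≠ 0) (hs : 0 < X Z W1 * X Z W2)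
    (hn1 : W1.1 ^ 2 + W1.2 ^ 2 ≤ Z.1 ^ 2 + Z.2 ^ 2) (hn2 : W2.1 ^ 2 + W2.2 ^ 2 ≤ Z.1 ^ 2 + Z.2 ^ 2)
    (hK : K Z W2 < K Z W1) : |a * W1.1 + b * W1.2| < |a * Z.1 + b * Z.2| := by
  have hX1 : X Z W1 ≠ 0 := by
    intro h0
    rw [h0, zero_mul] at hs
    exact lt_irrefl _ hs
  have hX2 : X Z W2 ≠ 0 := by
    intro h0
    rw [h0, mul_zero] at hs
    exact lt_irrefl _ hs
  have hv := value h hs
  have hD := abs_lt.1 (D_abs_lt hX1 hn1)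
  have hN : 0 < Z.1 ^ 2 + Z.2 ^ 2 := by
    have := abs_nonneg (Z.1 * W1.1 + Z.2 * W1.2)
    linarith [D_abs_lt hX1 hn1]
  have k1 := K_mul hX1
  have k2 := K_pos hX2 hn2
  have k3 : 0 < |X Z W1| := abs_pos.2 hX1
  have k4 : |X Z W1| * K Z W2 < |X Z W1| * K Z W1 := mul_lt_mul_of_pos_left hK k3
  have k5 : 0 < |X Z W1| * K Z W2 := mul_pos k3 k2
  have k6 : |(Z.1 * W1.1 + Z.2 * W1.2) + |X Z W1| * K Z W2| < Z.1 ^ 2 + Z.2 ^ 2 := by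
    rw [abs_lt]
    constructor <;> linarith
  have h1 : (Z.1 ^ 2 + Z.2 ^ 2) * |a * W1.1 + b * W1.2| =
      |a * Z.1 + b * Z.2| * |(Z.1 * W1.1 + Z.2 * W1.2) + |X Z W1| * K Z W2| := by
    rw [← abs_mul, ← hv, abs_mul, abs_of_pos hN]
  have h2 : (Z.1 ^ 2 + Z.2 ^ 2) * |a * W1.1 + b * W1.2| <
      (Z.1 ^ 2 + Z.2 ^ 2) * |a * Z.1 + b * Z.2| := by
    rw [h1, mul_comm (Z.1 ^ 2 + Z.2 ^ 2)]
    exact mul_lt_mul_of_pos_left k6 (abs_pos.2 h0)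
  exact lt_of_mul_lt_mul_left h2 hN.le

/-- equal cotangents on the same side: the same line -/
lemma same {a b : ℝ} {Z W1 W2 : ℝ × ℝ} (h : a * W2.1 + b * W2.2 = a * Z.1 + b * Z.2)
    (hs : 0 < X Z W1 * X Z W2) (hn1 : W1.1 ^ 2 + W1.2 ^ 2 ≤ Z.1 ^ 2 + Z.2 ^ 2)
    (hK : K Z W2 = K Z W1) : a * W1.1 + b * W1.2 = a * Z.1 + b * Z.2 := by
  have hX1 : X Z W1 ≠ 0 := by
    intro h0
    rw [h0, zero_mul] at hs
    exact lt_irrefl _ hs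
  have hv := value h hs
  rw [hK, K_mul hX1] at hv
  have hN : 0 < Z.1 ^ 2 + Z.2 ^ 2 := by
    have := abs_nonneg (Z.1 * W1.1 + Z.2 * W1.2)
    linarith [D_abs_lt hX1 hn1]
  have h2 : (Z.1 ^ 2 + Z.2 ^ 2) * (a * W1.1 + b * W1.2) =
      (Z.1 ^ 2 + Z.2 ^ 2) * (a * Z.1 + b * Z.2) := by
    rw [hv]; ring
  exact mul_left_cancel₀ hN.ne' h2

end Pool.Agent.U272.PS
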